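import Mathlib

set_option autoImplicit false

open Filter Topology

namespace Pool.Agent.Work.MP_ebafbb_an

/-- Real fourth root, written with square roots. -/
noncomputable def q4 (x : ℝ) : ℝ := Real.sqrt (Real.sqrt x)

lemma q4_nonneg (x : ℝ) : 0 ≤ q4 x := Real.sqrt_nonneg _

lemma q4_pow {x : ℝ} (hx : 0 ≤ x) : q4 x ^ 4 = x := by
  have h1 : q4 x ^ 2 = Real.sqrt x := Real.sq_sqrt (Real.sqrt_nonneg x)
  have h2 : Real.sqrt x ^ 2 = x := Real.sq_sqrt hx
  calc q4 x ^ 4 = (q4 x ^ 2) ^ 2 := by ring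
    _ = x := by rw [h1, h2]

variable {M : Type*} [MetricSpace M]

/-- `h` is Lipschitz with real constant `K`. -/
def LipR (K : ℝ) (h : M → ℝ) : Prop := ∀ x y, |h x - h y| ≤ K * dist x y

lemma LipR.mono {K K' : ℝ} {h : M → ℝ} (hh : LipR K h) (hK : K ≤ K') : LipR K' h :=
  fun x y => (hh x y).trans (mul_le_mul_of_nonneg_right hK dist_nonneg)

lemma LipR.lipschitzWith {K : ℝ} {h : M → ℝ} (hh : LipR K h) (hK : 0 ≤ K) :
    LipschitzWith K.toNNReal h := by
  refine LipschitzWith.of_dist_le_mul (fun x y => ?_)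
  rw [Real.coe_toNNReal K hK, Real.dist_eq]
  exact hh x y

lemma LipschitzWith.lipR' {K : NNReal} {h : M → ℝ} (hh : LipschitzWith K h) : LipR (K : ℝ) h := by
  intro x y
  have := hh.dist_le_mul x y
  rwa [Real.dist_eq] at this

lemma LipR.add {K K' : ℝ} {h h' : M → ℝ} (hh : LipR K h) (hh' : LipR K' h') :
    LipR (K + K') (fun x => h x + h' x) := by
  intro x y
  have h1 := hh x y
  have h2 := hh' x y
  have : h x + h' x - (h y + h' y) = (h x - h y) + (h' x - h' y) := by ring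
  rw [this, add_mul]
  exact (abs_add_le _ _).trans (add_le_add h1 h2)

lemma LipR.sub {K K' : ℝ} {h h' : M → ℝ} (hh : LipR K h) (hh' : LipR K' h') :
    LipR (K + K') (fun x => h x - h' x) := by
  intro x y
  have h1 := hh x y
  have h2 := hh' x y
  have : h x - h' x - (h y - h' y) = (h x - h y) - (h' x - h' y) := by ring
  rw [this, add_mul]
  exact (abs_sub _ _).trans (add_le_add h1 h2)

lemma LipR.const_mul {K : ℝ} {h : M → ℝ} (hh : LipR K h) (c : ℝ) :
    LipR (|c| * K) (fun x => c * h x) := by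
  intro x y
  have : c * h x - c * h y = c * (h x - h y) := by ring
  rw [this, abs_mul, mul_assoc]
  exact mul_le_mul_of_nonneg_left (hh x y) (abs_nonneg c)

lemma LipR.sum {ι : Type*} (s : Finset ι) {K : ι → ℝ} {h : ι → M → ℝ}
    (hh : ∀ i ∈ s, LipR (K i) (h i)) : LipR (∑ i ∈ s, K i) (fun x => ∑ i ∈ s, h i x) := by
  intro x y
  rw [← Finset.sum_sub_distrib, Finset.sum_mul]
  exact (Finset.abs_sum_le_sum_abs _ _).trans (Finset.sum_le_sum fun i hi => hh i hi x y)

/-- product of a bounded-by-one nonnegative Lipschitz function and a small Lipschitz function -/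
lemma LipR.mul {K Λ b r : ℝ} {ψ h : M → ℝ} (hψ : LipR Λ ψ) (hψb : ∀ x, |ψ x| ≤ b)
    (hh : LipR K h) (hhr : ∀ x, |h x| ≤ r) :
    LipR (b * K + r * Λ) (fun x => ψ x * h x) := by
  intro x y
  have h1 := hψ x y
  have h2 := hh x y
  have : ψ x * h x - ψ y * h y = ψ x * (h x - h y) + h y * (ψ x - ψ y) := by ring
  rw [this, add_mul]
  refine (abs_add_le _ _).trans (add_le_add ?_ ?_)
  · rw [abs_mul, mul_assoc]
    exact mul_le_mul (hψb x) h2 (abs_nonneg _) ((abs_nonneg _).trans (hψb x))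
  · rw [abs_mul, mul_assoc]
    exact mul_le_mul (hhr y) h1 (abs_nonneg _) ((abs_nonneg _).trans (hhr y))

/-- truncation at level `κ` -/
noncomputable def trunc (κ v : ℝ) : ℝ := max (-κ) (min κ v)

lemma abs_trunc_le {κ : ℝ} (hκ : 0 ≤ κ) (v : ℝ) : |trunc κ v| ≤ κ := by
  unfold trunc
  rw [abs_le]
  constructor
  · exact le_max_left _ _
  · exact max_le (by linarith) (min_le_left _ _)

lemma trunc_zero {κ : ℝ} (hκ : 0 ≤ κ) : trunc κ 0 = 0 := by
  unfold trunc
  rw [min_eq_right hκ, max_eq_right (by linarith)]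

lemma trunc_of_abs_le {κ v : ℝ} (hv : |v| ≤ κ) : trunc κ v = v := by
  unfold trunc
  rw [abs_le] at hv
  rw [min_eq_right hv.2, max_eq_right hv.1]

lemma abs_trunc_sub_le (κ v w : ℝ) : |trunc κ v - trunc κ w| ≤ |v - w| := by
  unfold trunc
  have h1 := abs_max_sub_max_le_max (-κ) (min κ v) (-κ) (min κ w)
  have h2 := abs_min_sub_min_le_max κ v κ w
  have h3 : max |(-κ) - (-κ)| |min κ v - min κ w| = |min κ v - min κ w| := by
    simp
  have h4 : max |κ - κ| |v - w| = |v - w| := by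
    simp
  rw [h3] at h1
  rw [h4] at h2
  exact h1.trans h2

lemma LipR.trunc {K κ : ℝ} {h : M → ℝ} (hh : LipR K h) :
    LipR K (fun x => trunc κ (h x)) :=
  fun x y => (abs_trunc_sub_le _ _ _).trans (hh x y)

lemma LipR.const (c : ℝ) : LipR (0 : ℝ) (fun _ : M => c) := by
  intro x y; simp

/-- `v - trunc κ v` is `1`-Lipschitz in `v`. -/
lemma abs_sub_trunc_sub_le (κ v w : ℝ) (hκ : 0 ≤ κ) :
    |(v - trunc κ v) - (w - trunc κ w)| ≤ |v - w| := by
  unfold trunc
  rcases le_total κ v with h1 | h1 <;> rcases le_total κ w with h2 | h2 <;>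
  rcases le_total (-κ) v with h3 | h3 <;> rcases le_total (-κ) w with h4 | h4 <;>
  simp only [min_eq_left, min_eq_right, max_eq_left, max_eq_right, h1, h2, h3, h4,
    (by linarith : -κ ≤ κ)] <;>
  (rw [abs_le]; constructor) <;>
  (rcases abs_cases (v - w) with ⟨h5, h6⟩ | ⟨h5, h6⟩ <;> rw [h5] <;> linarith)

variable {E : Type*} [NormedAddCommGroup E] [NormedSpace ℝ E]

/-- `δ : M → E` realises `E` as (a normed space whose completion is) the Lipschitz-free space over
the pointed metric space `(M, o)`, via its universal property. -/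
structure IsFree (o : M) (δ : M → E) : Prop where
  zero : δ o = 0
  lip : LipschitzWith 1 δ
  dense : Dense ((Submodule.span ℝ (Set.range δ) : Submodule ℝ E) : Set E)
  ext : ∀ (K : NNReal) (f : M → ℝ), LipschitzWith K f → f o = 0 →
    ∃ φ : E →L[ℝ] ℝ, ‖φ‖ ≤ (K : ℝ) ∧ ∀ x, φ (δ x) = f x

open Classical in
/-- the functional on `E` extending `h` (junk value `0` if there is none) -/
noncomputable def ev (δ : M → E) (h : M → ℝ) : E →L[ℝ] ℝ :=
  if H : ∃ φ : E →L[ℝ] ℝ, ∀ x, φ (δ x) = h x then H.choose else 0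

namespace IsFree

variable {o : M} {δ : M → E} (H : IsFree o δ)
include H

lemma unique {φ ψ : E →L[ℝ] ℝ} (h : ∀ x, φ (δ x) = ψ (δ x)) : φ = ψ := by
  have hcl : ∀ v ∈ (Submodule.span ℝ (Set.range δ) : Submodule ℝ E), φ v = ψ v := by
    intro v hv
    induction hv using Submodule.span_induction with
    | mem x hx => obtain ⟨y, rfl⟩ := hx; exact h y
    | zero => simp
    | add x y _ _ hx hy => simp [hx, hy]
    | smul a x _ hx => simp [hx]
  ext v
  have := H.dense.closure_eq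
  have hv : v ∈ closure ((Submodule.span ℝ (Set.range δ) : Submodule ℝ E) : Set E) := by
    rw [this]; trivial
  exact (Set.EqOn.closure (s := ((Submodule.span ℝ (Set.range δ) : Submodule ℝ E) : Set E))
    (fun v hv => hcl v hv) φ.continuous ψ.continuous) hv

lemma ev_eq {φ : E →L[ℝ] ℝ} {h : M → ℝ} (hφ : ∀ x, φ (δ x) = h x) : ev δ h = φ := by
  have H' : ∃ φ : E →L[ℝ] ℝ, ∀ x, φ (δ x) = h x := ⟨φ, hφ⟩
  unfold ev
  rw [dif_pos H']
  exact H.unique (fun x => by rw [H'.choose_spec x, hφ x])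

lemma ev_spec {K : ℝ} {h : M → ℝ} (hh : LipR K h) (hK : 0 ≤ K) (ho : h o = 0) :
    ‖ev δ h‖ ≤ K ∧ ∀ x, ev δ h (δ x) = h x := by
  obtain ⟨φ, hφ1, hφ2⟩ := H.ext K.toNNReal h (hh.lipschitzWith hK) ho
  rw [H.ev_eq hφ2]
  rw [Real.coe_toNNReal K hK] at hφ1
  exact ⟨hφ1, hφ2⟩

lemma ev_add {K K' : ℝ} {h h' : M → ℝ} (hh : LipR K h) (hK : 0 ≤ K) (ho : h o = 0)
    (hh' : LipR K' h') (hK' : 0 ≤ K') (ho' : h' o = 0) :
    ev δ (fun x => h x + h' x) = ev δ h + ev δ h' := by
  apply H.ev_eq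
  intro x
  simp [(H.ev_spec hh hK ho).2 x, (H.ev_spec hh' hK' ho').2 x]

lemma ev_sub {K K' : ℝ} {h h' : M → ℝ} (hh : LipR K h) (hK : 0 ≤ K) (ho : h o = 0)
    (hh' : LipR K' h') (hK' : 0 ≤ K') (ho' : h' o = 0) :
    ev δ (fun x => h x - h' x) = ev δ h - ev δ h' := by
  apply H.ev_eq
  intro x
  simp [(H.ev_spec hh hK ho).2 x, (H.ev_spec hh' hK' ho').2 x]

lemma ev_sum {ι : Type*} (s : Finset ι) {K : ι → ℝ} {h : ι → M → ℝ} (c : ι → ℝ)
    (hh : ∀ i ∈ s, LipR (K i) (h i)) (hK : ∀ i ∈ s, 0 ≤ K i) (ho : ∀ i ∈ s, h i o = 0) :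
    ev δ (fun x => ∑ i ∈ s, c i * h i x) = ∑ i ∈ s, c i • ev δ (h i) := by
  apply H.ev_eq
  intro x
  rw [sum_apply]
  refine Finset.sum_congr rfl (fun i hi => ?_)
  rw [smul_apply, (H.ev_spec (hh i hi) (hK i hi) (ho i hi)).2 x, smul_eq_mul]

/-- weak-star continuity of `h ↦ ev δ h m` on bounded sets. -/
lemma ev_tendsto {α : Type*} {l : Filter α} {K : ℝ} (hK : 0 ≤ K) {h : M → ℝ} {hk : α → M → ℝ}
    (hh : LipR K h) (ho : h o = 0) (hhk : ∀ k, LipR K (hk k)) (hok : ∀ k, hk k o = 0)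
    (hlim : ∀ x, Tendsto (fun k => hk k x) l (𝓝 (h x))) (m : E) :
    Tendsto (fun k => ev δ (hk k) m) l (𝓝 (ev δ h m)) := by
  have hspan : ∀ v ∈ (Submodule.span ℝ (Set.range δ) : Submodule ℝ E),
      Tendsto (fun k => ev δ (hk k) v) l (𝓝 (ev δ h v)) := by
    intro v hv
    induction hv using Submodule.span_induction with
    | mem x hx =>
      obtain ⟨y, rfl⟩ := hx
      simp_rw [fun k => (H.ev_spec (hhk k) hK (hok k)).2 y, (H.ev_spec hh hK ho).2 y]
      exact hlim y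
    | zero => simpa using tendsto_const_nhds
    | add x y _ _ hx hy => simpa using hx.add hy
    | smul a x _ hx => simpa using hx.const_mul a
  rw [Metric.tendsto_nhds]
  intro ε hε
  obtain ⟨v, hv, hvm⟩ := Metric.dense_iff.1 H.dense m (ε / (4 * (K + 1))) (by positivity)
  have h1 := (Metric.tendsto_nhds.1 (hspan v hvm)) (ε / 4) (by positivity)
  filter_upwards [h1] with k hk1
  rw [Metric.mem_ball, dist_eq_norm] at hv
  rw [Real.dist_eq] at hk1 ⊢
  have e1 : |ev δ (hk k) v - ev δ (hk k) m| ≤ K * (ε / (4 * (K + 1))) := by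
    rw [← map_sub, ← Real.norm_eq_abs]
    exact ((ev δ (hk k)).le_opNorm _).trans
      (mul_le_mul (H.ev_spec (hhk k) hK (hok k)).1 hv.le (norm_nonneg _) hK)
  have e2 : |ev δ h v - ev δ h m| ≤ K * (ε / (4 * (K + 1))) := by
    rw [← map_sub, ← Real.norm_eq_abs]
    exact ((ev δ h).le_opNorm _).trans
      (mul_le_mul (H.ev_spec hh hK ho).1 hv.le (norm_nonneg _) hK)
  have e3 : K * (ε / (4 * (K + 1))) ≤ ε / 4 := by
    have : K * (ε / (4 * (K + 1))) = (K / (K + 1)) * (ε / 4) := by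
      field_simp
    rw [this]
    have h3 : K / (K + 1) ≤ 1 := by
      rw [div_le_one (by linarith)]; linarith
    nlinarith
  rw [abs_le] at e1 e2
  rw [abs_lt] at hk1 ⊢
  constructor <;> linarith [hk1.1, hk1.2, e1.1, e1.2, e2.1, e2.2]

end IsFree

end Pool.Agent.Work.MP_ebafbb_an
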