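import Pool.Agent.Work.MP_ebafbb_an.Step

set_option autoImplicit false

open Filter Topology

namespace Pool.Agent.Work.MP_ebafbb_an

/-- the space `c₀` -/
abbrev c0 : Type := ZeroAtInftyContinuousMap ℕ ℝ

lemma c0_dist_le {f g : c0} {C : ℝ} (hC : 0 ≤ C) (h : ∀ n, dist (f n) (g n) ≤ C) :
    dist f g ≤ C := by
  rw [← ZeroAtInftyContinuousMap.dist_toBCF_eq_dist, BoundedContinuousFunction.dist_le hC]
  exact h

lemma c0_dist_coe_le (f g : c0) (n : ℕ) : dist (f n) (g n) ≤ dist f g := by
  rw [← ZeroAtInftyContinuousMap.dist_toBCF_eq_dist]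
  exact BoundedContinuousFunction.dist_coe_le_dist (f := f.toBCF) (g := g.toBCF) n

/-- extension by zero -/
noncomputable def ext0 (k : ℕ) (z : Fin k → ℝ) : c0 where
  toFun := fun n => if h : n < k then z ⟨n, h⟩ else 0
  continuous_toFun := continuous_of_discreteTopology
  zero_at_infty' := by
    rw [cocompact_eq_cofinite, Nat.cofinite_eq_atTop]
    refine tendsto_const_nhds.congr' ?_
    filter_upwards [eventually_ge_atTop k] with n hn
    rw [dif_neg (by omega)]

lemma ext0_apply (k : ℕ) (z : Fin k → ℝ) (n : ℕ) :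
    ext0 k z n = if h : n < k then z ⟨n, h⟩ else 0 := rfl

lemma c0_approx : LInfApprox c0 := by
  refine ⟨fun k => k, fun k f i => f i, fun k z => ext0 k z, fun k => ?_, fun k => ?_,
    fun f => ?_⟩
  · refine LipschitzWith.of_dist_le_mul (fun f g => ?_)
    rw [NNReal.coe_one, one_mul]
    exact (dist_pi_le_iff dist_nonneg).2 (fun i => c0_dist_coe_le f g i)
  · refine LipschitzWith.of_dist_le_mul (fun z w => ?_)
    rw [NNReal.coe_one, one_mul]
    refine c0_dist_le dist_nonneg (fun n => ?_)
    rw [ext0_apply, ext0_apply]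
    split_ifs with h
    · exact dist_le_pi_dist z w _
    · simp
  · rw [Metric.tendsto_atTop]
    intro ε hε
    have h0 : Tendsto f (cocompact ℕ) (𝓝 0) := f.zero_at_infty'
    rw [cocompact_eq_cofinite, Nat.cofinite_eq_atTop, Metric.tendsto_atTop] at h0
    obtain ⟨N, hN⟩ := h0 (ε / 2) (by positivity)
    refine ⟨N, fun k hk => ?_⟩
    refine lt_of_le_of_lt (c0_dist_le (C := ε / 2) (by positivity) (fun n => ?_)) (by linarith)
    rw [ext0_apply]
    split_ifs with h
    · simp; positivity
    · have := hN n (by omega)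
      rw [dist_comm] at this
      exact this.le

end Pool.Agent.Work.MP_ebafbb_an
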