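import Pool.Agent.Work.MP_ebafbb_an.Step

set_option autoImplicit false

open Filter Topology MeasureTheory

namespace Pool.Agent.Work.MP_ebafbb_an

variable {M : Type*} [MetricSpace M]
variable {E : Type*} [NormedAddCommGroup E] [NormedSpace ℝ E]

/-- The gliding hump construction. -/
lemma build {o : M} {δ : M → E} (H : IsFree o δ) (happ : LInfApprox M) {m : ℕ → E} {A B C : ℝ}
    (hT : T4 m A) (hA : 0 ≤ A) {f : ℕ → M → ℝ} (hC : 0 ≤ C) (hS : S4 f C) (hB0 : 0 ≤ B)
    (hB : B4 f B) (hfo : ∀ n, f n o = 0) (hpair : ∀ n, 7 / 8 ≤ ev δ (f n) (m n))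
    {L η ε : ℝ} (hL : L = q4 C + 1) (hη : 0 < η) (hε : 0 < ε) (j : ℕ) (hj : (j : ℝ) * ε ≤ 1 / 8) :
    ∃ (h : ℕ → M → ℝ) (n : ℕ → ℕ) (ψ : M → ℝ) (Λ t r : ℝ), 0 ≤ Λ ∧ 0 < t ∧ 0 < r ∧ LipR Λ ψ ∧
      (∀ x, 0 ≤ ψ x) ∧ (∀ x, ψ x ≤ 1) ∧
      (∀ i < j, LipR (2 * L) (h i) ∧ h i o = 0 ∧ 1 / 2 ≤ ev δ (h i) (m (n i))) ∧
      (∀ x y, ∑ i ∈ Finset.range j, |h i x - h i y| ≤ (L + 4 * j * η) * dist x y) ∧
      (∀ x y, 0 < ψ x → dist x y ≤ t →
        ∑ i ∈ Finset.range j, |h i x - h i y| ≤ (4 * j * η) * dist x y) ∧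
      (∀ g : M → ℝ, LipR L g → g o = 0 → (∀ x, |g x| ≤ r) →
        ∀ k, |ev δ (fun x => (1 - ψ x) * g x) (m k)| ≤ j * ε) := by
  have hqC := q4_nonneg C
  have hLpos : 0 < L := by rw [hL]; linarith
  induction j with
  | zero =>
    refine ⟨fun _ _ => 0, fun _ => 0, fun _ => 1, 0, 1, 1, le_rfl, one_pos, one_pos,
      LipR.const 1, fun _ => zero_le_one, fun _ => le_rfl, fun i hi => absurd hi (Nat.not_lt_zero i),
      fun x y => ?_, fun x y _ _ => ?_, fun g _ _ _ k => ?_⟩
    · simp; positivity
    · simp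
    · have : ev δ (fun x : M => (1 - (1 : ℝ)) * g x) = 0 := H.ev_eq (fun x => by simp)
      rw [this]; simp
  | succ j ih =>
    have hj' : (j : ℝ) * ε ≤ 1 / 8 := by
      push_cast at hj
      nlinarith
    obtain ⟨h, n, ψ, Λ, t, r, hΛ, ht, hr, hψ, hψ0, hψ1, h1, h2, h3, h4⟩ := ih hj'
    set κ : ℝ := min r (min (η * t / 2) (min (η / (Λ + 1)) (L / (Λ + 1)))) with hκdef
    have hκ : 0 < κ := by
      rw [hκdef]
      refine lt_min hr (lt_min (by positivity) (lt_min (by positivity) (by positivity)))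
    have hκr : κ ≤ r := min_le_left _ _
    have hκt : 2 * κ ≤ η * t := by
      have : κ ≤ η * t / 2 := (min_le_right _ _).trans (min_le_left _ _)
      linarith
    have hκΛ : κ * Λ ≤ η := by
      have h5 : κ ≤ η / (Λ + 1) :=
        (min_le_right _ _).trans ((min_le_right _ _).trans (min_le_left _ _))
      rw [le_div_iff₀ (by positivity)] at h5
      nlinarith
    have hκL : κ * Λ ≤ L := by
      have h5 : κ ≤ L / (Λ + 1) :=
        (min_le_right _ _).trans ((min_le_right _ _).trans (min_le_right _ _))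
      rw [le_div_iff₀ (by positivity)] at h5
      nlinarith
    obtain ⟨g, V, n₀, t', Λ', ht', hΛ', hgo, hgκ, hgL, hgm, hV0, hβL, hgloc, r', hr', hneg⟩ :=
      step H happ hT hA hC hS hB0 hB hfo hpair hκ hε hη (show 0 < 2 * L by positivity)
    have hgL' : LipR L g := hgL.mono (by rw [hL]; linarith)
    set β : M → ℝ := fun x => clamp (V x / η - 1) with hβ
    have hβ0 : ∀ x, 0 ≤ β x := fun x => clamp_nonneg _
    have hβ1 : ∀ x, β x ≤ 1 := fun x => clamp_le_one _
    have hψg : LipR (2 * L) (fun x => ψ x * g x) := by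
      have := hψ.mul (b := 1) (fun x => by rw [abs_of_nonneg (hψ0 x)]; exact hψ1 x) hgL' hgκ
      exact this.mono (by linarith)
    have hψc : LipR Λ (fun x => 1 - ψ x) := by
      intro x y
      have := hψ y x
      rw [dist_comm y x] at this
      have e : (1 - ψ x) - (1 - ψ y) = ψ y - ψ x := by ring
      rwa [e]
    have hψcg : LipR (2 * L) (fun x => (1 - ψ x) * g x) := by
      have := hψc.mul (b := 1) (fun x => by
        rw [abs_of_nonneg (by linarith [hψ1 x])]; linarith [hψ0 x]) hgL' hgκ
      exact this.mono (by linarith)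
    have hpairg : 1 / 2 ≤ ev δ (fun x => ψ x * g x) (m n₀) := by
      have e : ev δ g = ev δ (fun x => ψ x * g x) + ev δ (fun x => (1 - ψ x) * g x) := by
        rw [← H.ev_add hψg (by positivity) (by simp [hgo]) hψcg (by positivity) (by simp [hgo])]
        congr 1
        funext x
        ring
      have h5 := h4 g hgL' hgo (fun x => (hgκ x).trans hκr) n₀
      rw [e] at hgm
      have h6 : (ev δ (fun x => ψ x * g x) + ev δ (fun x => (1 - ψ x) * g x)) (m n₀) =
        ev δ (fun x => ψ x * g x) (m n₀) + ev δ (fun x => (1 - ψ x) * g x) (m n₀) := rfl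
      rw [h6] at hgm
      rw [abs_le] at h5
      linarith [h5.2]
    -- increments
    have hinc : ∀ x y, |ψ x * g x - ψ y * g y| ≤ ψ x * |g x - g y| + η * dist x y := by
      intro x y
      have e : ψ x * g x - ψ y * g y = ψ x * (g x - g y) + g y * (ψ x - ψ y) := by ring
      rw [e]
      refine (abs_add_le _ _).trans (add_le_add ?_ ?_)
      · rw [abs_mul, abs_of_nonneg (hψ0 x)]
      · rw [abs_mul]
        calc |g y| * |ψ x - ψ y| ≤ κ * (Λ * dist x y) :=
              mul_le_mul (hgκ y) (hψ x y) (abs_nonneg _) hκ.le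
          _ = (κ * Λ) * dist x y := by ring
          _ ≤ η * dist x y := mul_le_mul_of_nonneg_right hκΛ dist_nonneg
    set h' : ℕ → M → ℝ := fun i => if i < j then h i else fun x => ψ x * g x with hh'
    have hh'lt : ∀ i, i < j → h' i = h i := fun i hi => by rw [hh']; exact if_pos hi
    have hh'j : h' j = fun x => ψ x * g x := by rw [hh']; exact if_neg (lt_irrefl j)
    have hsum' : ∀ x y, ∑ i ∈ Finset.range (j + 1), |h' i x - h' i y| =
        ∑ i ∈ Finset.range j, |h i x - h i y| + |ψ x * g x - ψ y * g y| := by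
      intro x y
      rw [Finset.sum_range_succ, hh'j]
      congr 1
      refine Finset.sum_congr rfl (fun i hi => ?_)
      rw [hh'lt i (Finset.mem_range.1 hi)]
    have hd0 : ∀ x y : M, 0 ≤ dist x y := fun _ _ => dist_nonneg
    have hj0 : (0 : ℝ) ≤ j := Nat.cast_nonneg j
    refine ⟨h', fun i => if i < j then n i else n₀, fun x => ψ x * (1 - β x), Λ + Λ',
      min t t', min r (min r' (L / (Λ + 1))), by positivity, lt_min ht ht',
      lt_min hr (lt_min hr' (by positivity)), ?_, fun x => ?_, fun x => ?_, ?_, ?_, ?_, ?_⟩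
    · -- Lipschitz
      intro x y
      have e : ψ x * (1 - β x) - ψ y * (1 - β y) =
          (1 - β x) * (ψ x - ψ y) + ψ y * (β y - β x) := by ring
      rw [e, add_mul]
      refine (abs_add_le _ _).trans (add_le_add ?_ ?_)
      · rw [abs_mul, abs_of_nonneg (by linarith [hβ1 x])]
        calc (1 - β x) * |ψ x - ψ y| ≤ 1 * (Λ * dist x y) :=
              mul_le_mul (by linarith [hβ0 x]) (hψ x y) (abs_nonneg _) zero_le_one
          _ = _ := one_mul _
      · rw [abs_mul, abs_of_nonneg (hψ0 y)]
        have h5 := hβL y x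
        rw [dist_comm y x] at h5
        calc ψ y * |β y - β x| ≤ 1 * (Λ' * dist x y) :=
              mul_le_mul (hψ1 y) h5 (abs_nonneg _) zero_le_one
          _ = _ := one_mul _
    · exact mul_nonneg (hψ0 x) (by linarith [hβ1 x])
    · calc ψ x * (1 - β x) ≤ 1 * 1 :=
            mul_le_mul (hψ1 x) (by linarith [hβ0 x]) (by linarith [hβ1 x]) zero_le_one
        _ = 1 := one_mul 1
    · intro i hi
      rcases Nat.lt_succ_iff_lt_or_eq.1 hi with h5 | h5
      · rw [hh'lt i h5]
        simp only [h5, if_true]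
        exact h1 i h5
      · subst h5
        rw [hh'j]
        simp only [lt_irrefl, if_false]
        exact ⟨hψg, by simp [hgo], hpairg⟩
    · -- global sum
      intro x y
      rw [hsum']
      push_cast
      rcases le_total (dist x y) t with hle | hge
      · rcases (hψ0 x).eq_or_lt with hz | hpos
        · have h5 := hinc x y
          have h5' : ψ x * |g x - g y| = 0 := by rw [← hz, zero_mul]
          have h6 := h2 x y
          have h7 := mul_nonneg hη.le (hd0 x y)
          have e : (L + 4 * ((j : ℝ) + 1) * η) * dist x y = (L + 4 * j * η) * dist x y +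
            4 * (η * dist x y) := by ring
          rw [e]
          linarith
        · have h5 := hinc x y
          have h6 := h3 x y hpos hle
          have h7 : ψ x * |g x - g y| ≤ L * dist x y := by
            calc ψ x * |g x - g y| ≤ 1 * (L * dist x y) :=
                  mul_le_mul (hψ1 x) (hgL' x y) (abs_nonneg _) zero_le_one
              _ = _ := one_mul _
          have h8 := mul_nonneg hη.le (hd0 x y)
          have e : (L + 4 * ((j : ℝ) + 1) * η) * dist x y = L * dist x y +
            (4 * j * η) * dist x y + 4 * (η * dist x y) := by ring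
          rw [e]
          linarith
      · have h5 := hinc x y
        have h6 := h2 x y
        have h7 : ψ x * |g x - g y| ≤ η * dist x y := by
          have h9 : |g x - g y| ≤ 2 * κ := by
            refine (abs_sub _ _).trans ?_
            have := hgκ x
            have := hgκ y
            linarith
          calc ψ x * |g x - g y| ≤ 1 * (2 * κ) :=
                mul_le_mul (hψ1 x) h9 (abs_nonneg _) zero_le_one
            _ = 2 * κ := one_mul _
            _ ≤ η * t := hκt
            _ ≤ η * dist x y := mul_le_mul_of_nonneg_left hge hη.le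
        have h8 := mul_nonneg hη.le (hd0 x y)
        have e : (L + 4 * ((j : ℝ) + 1) * η) * dist x y = (L + 4 * j * η) * dist x y +
          4 * (η * dist x y) := by ring
        rw [e]
        linarith
    · -- local sum
      intro x y hpos0 hle
      rw [hsum']
      push_cast
      have hpos : 0 < ψ x * (1 - β x) := hpos0
      have hψpos : 0 < ψ x := by
        rcases (hψ0 x).eq_or_lt with hz | hp
        · rw [← hz, zero_mul] at hpos; exact absurd hpos (lt_irrefl 0)
        · exact hp
      have hβlt : β x < 1 := by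
        by_contra hc
        push Not at hc
        have : β x = 1 := le_antisymm (hβ1 x) hc
        rw [this, sub_self, mul_zero] at hpos
        exact lt_irrefl 0 hpos
      have hVlt : V x < 2 * η := by
        by_contra hc
        push Not at hc
        apply hβlt.ne
        rw [hβ]
        apply clamp_of_one_le
        have : 2 ≤ V x / η := by rwa [le_div_iff₀ hη]
        linarith
      have h5 := hinc x y
      have h6 := h3 x y hψpos (hle.trans (min_le_left _ _))
      have h7 : ψ x * |g x - g y| ≤ 3 * η * dist x y := by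
        have h9 : |g x - g y| ≤ 3 * η * dist x y :=
          (hgloc x y (hle.trans (min_le_right _ _))).trans
            (mul_le_mul_of_nonneg_right (by linarith) (hd0 x y))
        calc ψ x * |g x - g y| ≤ 1 * (3 * η * dist x y) :=
              mul_le_mul (hψ1 x) h9 (abs_nonneg _) zero_le_one
          _ = _ := one_mul _
      have e : (4 * ((j : ℝ) + 1) * η) * dist x y = (4 * j * η) * dist x y +
        3 * η * dist x y + η * dist x y := by ring
      rw [e]
      linarith
    · -- negligibility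
      intro g₁ hg₁L hg₁o hg₁r k
      have hg₁r1 : ∀ x, |g₁ x| ≤ r := fun x => (hg₁r x).trans (min_le_left _ _)
      have hg₁r2 : ∀ x, |g₁ x| ≤ r' := fun x =>
        (hg₁r x).trans ((min_le_right _ _).trans (min_le_left _ _))
      have hg₁r3 : ∀ x, |g₁ x| ≤ L / (Λ + 1) := fun x =>
        (hg₁r x).trans ((min_le_right _ _).trans (min_le_right _ _))
      have hLΛ : L / (Λ + 1) * Λ ≤ L := by
        rw [div_mul_eq_mul_div, div_le_iff₀ (by positivity)]
        nlinarith
      have hψg₁ : LipR (2 * L) (fun x => ψ x * g₁ x) := by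
        have := hψ.mul (b := 1) (fun x => by rw [abs_of_nonneg (hψ0 x)]; exact hψ1 x) hg₁L hg₁r3
        exact this.mono (by linarith)
      have hψcg₁ : LipR (2 * L) (fun x => (1 - ψ x) * g₁ x) := by
        have := hψc.mul (b := 1) (fun x => by
          rw [abs_of_nonneg (by linarith [hψ1 x])]; linarith [hψ0 x]) hg₁L hg₁r3
        exact this.mono (by linarith)
      have hψg₁r : ∀ x, |ψ x * g₁ x| ≤ L / (Λ + 1) := by
        intro x
        rw [abs_mul, abs_of_nonneg (hψ0 x)]
        calc ψ x * |g₁ x| ≤ 1 * (L / (Λ + 1)) :=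
              mul_le_mul (hψ1 x) (hg₁r3 x) (abs_nonneg _) zero_le_one
          _ = _ := one_mul _
      have hβψg₁ : LipR (1 * (2 * L) + L / (Λ + 1) * Λ') (fun x => β x * (ψ x * g₁ x)) :=
        LipR.mul hβL (fun x => by rw [abs_of_nonneg (hβ0 x)]; exact hβ1 x) hψg₁ hψg₁r
      have e : ev δ (fun x => (1 - ψ x * (1 - β x)) * g₁ x) =
          ev δ (fun x => (1 - ψ x) * g₁ x) + ev δ (fun x => β x * (ψ x * g₁ x)) := by
        rw [← H.ev_add hψcg₁ (by positivity) (by simp [hg₁o]) hβψg₁ (by positivity)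
          (by simp [hg₁o])]
        congr 1
        funext x
        ring
      have h5 := h4 g₁ hg₁L hg₁o hg₁r1 k
      have h6 := hneg (fun x => ψ x * g₁ x) hψg₁ (by simp [hg₁o]) (fun x => by
        rw [abs_mul, abs_of_nonneg (hψ0 x)]
        calc ψ x * |g₁ x| ≤ 1 * r' :=
              mul_le_mul (hψ1 x) (hg₁r2 x) (abs_nonneg _) zero_le_one
          _ = _ := one_mul _) k
      rw [e]
      have h7 : (ev δ (fun x => (1 - ψ x) * g₁ x) + ev δ (fun x => β x * (ψ x * g₁ x))) (m k) =
        ev δ (fun x => (1 - ψ x) * g₁ x) (m k) + ev δ (fun x => β x * (ψ x * g₁ x)) (m k) := rfl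
      rw [h7]
      push_cast
      refine (abs_add_le _ _).trans ?_
      have : ((j : ℝ) + 1) * ε = j * ε + ε := by ring
      rw [this]
      exact add_le_add h5 h6

/-- Contradiction for bounded coordinate functions. -/
lemma core_bounded {o : M} {δ : M → E} (H : IsFree o δ) (happ : LInfApprox M) {m : ℕ → E}
    {A B C : ℝ} (hT : T4 m A) (hA : 0 ≤ A) {f : ℕ → M → ℝ} (hC : 0 ≤ C) (hS : S4 f C)
    (hB0 : 0 ≤ B) (hB : B4 f B) (hfo : ∀ n, f n o = 0)
    (hpair : ∀ n, 7 / 8 ≤ ev δ (f n) (m n)) : False := by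
  have hqC := q4_nonneg C
  set L : ℝ := q4 C + 1 with hL
  have hLpos : 0 < L := by rw [hL]; linarith
  obtain ⟨J, hJ⟩ := exists_nat_gt (16 * (A * (L + 4) ^ 4))
  have hJ0 : (0 : ℝ) < J := by
    have : 0 ≤ 16 * (A * (L + 4) ^ 4) := by positivity
    linarith
  obtain ⟨h, n, ψ, Λ, t, r, hΛ, ht, hr, hψ, hψ0, hψ1, h1, h2, h3, h4⟩ :=
    build H happ hT hA hC hS hB0 hB hfo hpair (η := 1 / J) (ε := 1 / (8 * J)) hL
      (by positivity) (by positivity) J (by
        have : (J : ℝ) * (1 / (8 * J)) = 1 / 8 := by field_simp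
        rw [this])
  have hK : ∀ x y, ∑ i ∈ Finset.range J, |h i x - h i y| ≤ (L + 4) * dist x y := by
    intro x y
    refine (h2 x y).trans (le_of_eq ?_)
    have : 4 * (J : ℝ) * (1 / J) = 4 := by field_simp
    rw [this]
  have hp := pairing_bound' H hT hA (Finset.range J) (h := h) (Kf := fun _ => 2 * L)
    (fun _ _ => by positivity) (fun i hi => (h1 i (Finset.mem_range.1 hi)).1)
    (fun i hi => (h1 i (Finset.mem_range.1 hi)).2.1) (K := L + 4) (by positivity) hK n
  have hlow : (J : ℝ) * (1 / 2) ^ 4 ≤ ∑ i ∈ Finset.range J, (ev δ (h i) (m (n i))) ^ 4 := by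
    rw [show (J : ℝ) * (1 / 2) ^ 4 = ∑ _i ∈ Finset.range J, ((1 : ℝ) / 2) ^ 4 by simp]
    refine Finset.sum_le_sum (fun i hi => ?_)
    exact pow_le_pow_left₀ (by norm_num) (h1 i (Finset.mem_range.1 hi)).2.2 4
  have : (J : ℝ) * (1 / 2) ^ 4 = J / 16 := by ring
  rw [this] at hlow
  linarith

/-- **Core theorem**, in terms of sequences. -/
theorem core {o : M} {δ : M → E} (H : IsFree o δ) (happ : LInfApprox M) {m : ℕ → E}
    {A C : ℝ} (hT : T4 m A) (hA : 0 ≤ A) {f : ℕ → M → ℝ} (hC : 0 ≤ C) (hS : S4 f C)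
    (hfo : ∀ n, f n o = 0) (hpair : ∀ n, ev δ (f n) (m n) = 1) : False := by
  have hqC := q4_nonneg C
  obtain ⟨R, hR, htail⟩ := tail H hT hA hS hfo (show (0 : ℝ) < 1 / 8 by norm_num)
  have hFo : ∀ (t : Finset ℕ) (θ : ℕ → ℝ), ∑ n ∈ t, θ n * f n o = 0 :=
    fun t θ => Finset.sum_eq_zero (fun n _ => by rw [hfo n, mul_zero])
  have hS' : S4 (fun n x => cut o R x * f n x) (3 ^ 4 * C) := by
    intro t θ hθ
    have h1 := cut_mul_lip hR (q4_nonneg _) (hS t θ hθ) (hFo t θ)
    have h2 : q4 (3 ^ 4 * C * t.card) = 3 * q4 (C * t.card) := by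
      rw [mul_assoc, q4_mul_pow 3 _ (by norm_num)]
    rw [h2]
    refine fun x y => le_trans (le_of_eq ?_) (h1 x y)
    congr 1
    simp only [Finset.mul_sum]
    congr 1 <;> exact Finset.sum_congr rfl (fun n _ => by ring)
  have hB' : B4 (fun n x => cut o R x * f n x) ((2 * R) ^ 4 * C) := by
    intro t θ hθ x
    have h1 := cut_mul_bdd hR (q4_nonneg _) (hS t θ hθ) (hFo t θ) x
    have h2 : q4 ((2 * R) ^ 4 * C * t.card) = 2 * R * q4 (C * t.card) := by
      rw [mul_assoc, q4_mul_pow (2 * R) _ (by positivity)]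
    rw [h2]
    refine le_trans (le_of_eq ?_) h1
    congr 1
    simp only [Finset.mul_sum]
    exact Finset.sum_congr rfl (fun n _ => by ring)
  refine core_bounded H happ hT hA (by positivity) hS' (by positivity) hB'
    (fun n => by simp [hfo]) (fun n => ?_)
  have hcl : LipR (3 * q4 C) (fun x => cut o R x * f n x) :=
    cut_mul_lip hR hqC (hS.single n) (hfo n)
  have e : ev δ (fun x => f n x - cut o R x * f n x) (m n) =
      ev δ (f n) (m n) - ev δ (fun x => cut o R x * f n x) (m n) := by
    rw [H.ev_sub (hS.single n) hqC (hfo n) hcl (by positivity) (by simp [hfo n])]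
    rfl
  have h1 := htail n
  rw [e, hpair n, abs_le] at h1
  linarith [h1.2]

end Pool.Agent.Work.MP_ebafbb_an
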