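import Pool.Agent.Work.MP_ebafbb_an.Basic

set_option autoImplicit false

open Filter Topology

namespace Pool.Agent.Work.MP_ebafbb_an

lemma dual_apply_eq {N : ℕ} (u : (Fin N → ℝ) →L[ℝ] ℝ) (y : Fin N → ℝ) :
    u y = ∑ k, y k * u (Pi.single k 1) := by
  conv_lhs => rw [← Finset.univ_sum_single y]
  rw [map_sum]
  refine Finset.sum_congr rfl (fun k _ => ?_)
  have : (Pi.single k (y k) : Fin N → ℝ) = y k • (Pi.single k (1 : ℝ) : Fin N → ℝ) := by
    rw [← Pi.single_smul, smul_eq_mul, mul_one]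
  rw [this, map_smul, smul_eq_mul]

lemma dual_norm_le {N : ℕ} (u : (Fin N → ℝ) →L[ℝ] ℝ) :
    ‖u‖ ≤ ∑ k, |u (Pi.single k 1)| := by
  refine ContinuousLinearMap.opNorm_le_bound _ (Finset.sum_nonneg fun _ _ => abs_nonneg _) ?_
  intro y
  rw [dual_apply_eq u y, Real.norm_eq_abs, Finset.sum_mul]
  refine (Finset.abs_sum_le_sum_abs _ _).trans (Finset.sum_le_sum fun k _ => ?_)
  rw [abs_mul, mul_comm]
  refine mul_le_mul_of_nonneg_left ?_ (abs_nonneg _)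
  exact norm_le_pi_norm y k

lemma le_dual_norm {N : ℕ} (u : (Fin N → ℝ) →L[ℝ] ℝ) :
    ∑ k, |u (Pi.single k 1)| ≤ ‖u‖ := by
  set y : Fin N → ℝ := fun k => if 0 ≤ u (Pi.single k 1) then 1 else -1 with hy
  have hyn : ‖y‖ ≤ 1 := by
    rw [pi_norm_le_iff_of_nonneg zero_le_one]
    intro k
    rw [hy]
    dsimp only
    split_ifs <;> simp
  have h1 : u y = ∑ k, |u (Pi.single k 1)| := by
    rw [dual_apply_eq u y]
    refine Finset.sum_congr rfl (fun k _ => ?_)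
    rw [hy]
    dsimp only
    split_ifs with h
    · rw [one_mul, abs_of_nonneg h]
    · rw [abs_of_neg (not_le.1 h)]; ring
  rw [← h1]
  refine (le_abs_self _).trans ?_
  rw [← Real.norm_eq_abs]
  refine (u.le_opNorm y).trans ?_
  exact mul_le_of_le_one_right (norm_nonneg _) hyn

/-- the auxiliary potential used for the Khintchine inequality -/
noncomputable def pot (l x s : ℝ) : ℝ :=
  (3 / 2) * (x ^ 2 + s) / l - (1 / 2) * (x ^ 4 + 6 * x ^ 2 * s + 3 * s ^ 2) / l ^ 3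

lemma pot_avg {l : ℝ} (hl : 0 ≤ l) (x a s : ℝ) :
    2 * pot l x (a ^ 2 + s) ≤ pot l (x + 1 * a) s + pot l (x + -1 * a) s := by
  have h : pot l (x + 1 * a) s + pot l (x + -1 * a) s - 2 * pot l x (a ^ 2 + s) =
      2 * a ^ 4 / l ^ 3 := by
    unfold pot
    ring
  have : 0 ≤ 2 * a ^ 4 / l ^ 3 := by positivity
  linarith

lemma pot_le_abs {l : ℝ} (hl : 0 ≤ l) (x : ℝ) : pot l x 0 ≤ |x| := by
  rcases hl.eq_or_lt with h | h
  · rw [← h]; unfold pot; simp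
  · unfold pot
    have hx : x ^ 2 = |x| ^ 2 := (sq_abs x).symm
    have hx4 : x ^ 4 = |x| ^ 4 := by
      calc x ^ 4 = (x ^ 2) ^ 2 := by ring
        _ = |x| ^ 4 := by rw [hx]; ring
    rw [hx4, hx]
    set y := |x| with hy
    have hy0 : 0 ≤ y := abs_nonneg x
    have e : y - ((3 / 2) * (y ^ 2 + 0) / l - (1 / 2) * (y ^ 4 + 6 * y ^ 2 * 0 + 3 * 0 ^ 2) / l ^ 3)
        = y * (y - l) ^ 2 * (y + 2 * l) / (2 * l ^ 3) := by
      field_simp
      ring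
    have : 0 ≤ y * (y - l) ^ 2 * (y + 2 * l) / (2 * l ^ 3) := by positivity
    linarith

lemma exists_signs_pot {ι κ : Type*} (A : Finset ι) (t : Finset κ) (a : ι → κ → ℝ)
    {l : κ → ℝ} (hl : ∀ k ∈ t, 0 ≤ l k) (x : κ → ℝ) :
    ∃ θ : ι → ℝ, (∀ i, θ i = 1 ∨ θ i = -1) ∧
      ∑ k ∈ t, pot (l k) (x k) (∑ i ∈ A, (a i k) ^ 2) ≤
        ∑ k ∈ t, pot (l k) (x k + ∑ i ∈ A, θ i * a i k) 0 := by
  classical
  induction A using Finset.induction_on generalizing x with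
  | empty => exact ⟨fun _ => 1, fun _ => Or.inl rfl, by simp⟩
  | insert j A hj ih =>
    have hstep : ∀ c : ℝ, (c = 1 ∨ c = -1) → ∃ θ : ι → ℝ, (∀ i, θ i = 1 ∨ θ i = -1) ∧
        ∑ k ∈ t, pot (l k) (x k + c * a j k) (∑ i ∈ A, (a i k) ^ 2) ≤
          ∑ k ∈ t, pot (l k) (x k + ∑ i ∈ insert j A, θ i * a i k) 0 := by
      intro c hc
      obtain ⟨θ, hθ, hle⟩ := ih (fun k => x k + c * a j k)
      refine ⟨Function.update θ j c, ?_, hle.trans (le_of_eq ?_)⟩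
      · intro i
        by_cases h : i = j
        · subst h; simpa using hc
        · simpa [Function.update_of_ne h] using hθ i
      · refine Finset.sum_congr rfl (fun k _ => ?_)
        rw [Finset.sum_insert hj, Function.update_self]
        have : ∑ i ∈ A, Function.update θ j c i * a i k = ∑ i ∈ A, θ i * a i k := by
          refine Finset.sum_congr rfl (fun i hi => ?_)
          rw [Function.update_of_ne (ne_of_mem_of_not_mem hi hj)]
        rw [this]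
        congr 1
        ring
    have havg : 2 * ∑ k ∈ t, pot (l k) (x k) (∑ i ∈ insert j A, (a i k) ^ 2) ≤
        ∑ k ∈ t, pot (l k) (x k + 1 * a j k) (∑ i ∈ A, (a i k) ^ 2) +
          ∑ k ∈ t, pot (l k) (x k + -1 * a j k) (∑ i ∈ A, (a i k) ^ 2) := by
      rw [← Finset.sum_add_distrib, Finset.mul_sum]
      refine Finset.sum_le_sum (fun k hk => ?_)
      rw [Finset.sum_insert hj]
      exact pot_avg (hl k hk) _ _ _
    obtain ⟨θ1, hθ1, hle1⟩ := hstep 1 (Or.inl rfl)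
    obtain ⟨θ2, hθ2, hle2⟩ := hstep (-1) (Or.inr rfl)
    rcases le_total (∑ k ∈ t, pot (l k) (x k + 1 * a j k) (∑ i ∈ A, (a i k) ^ 2))
      (∑ k ∈ t, pot (l k) (x k + -1 * a j k) (∑ i ∈ A, (a i k) ^ 2)) with h | h
    · exact ⟨θ2, hθ2, by linarith⟩
    · exact ⟨θ1, hθ1, by linarith⟩

/-- Khintchine inequality (for a vector-valued sum, choosing one sign vector). -/
lemma khintchine {ι κ : Type*} (A : Finset ι) (t : Finset κ) (a : ι → κ → ℝ) :
    ∃ θ : ι → ℝ, (∀ i, θ i = 1 ∨ θ i = -1) ∧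
      (9 / 16) * ∑ k ∈ t, Real.sqrt (∑ i ∈ A, (a i k) ^ 2) ≤
        ∑ k ∈ t, |∑ i ∈ A, θ i * a i k| := by
  obtain ⟨θ, hθ, hle⟩ := exists_signs_pot A t a
    (l := fun k => 2 * Real.sqrt (∑ i ∈ A, (a i k) ^ 2))
    (fun k _ => by positivity) (fun _ => 0)
  refine ⟨θ, hθ, ?_⟩
  have h1 : (9 / 16) * ∑ k ∈ t, Real.sqrt (∑ i ∈ A, (a i k) ^ 2) =
      ∑ k ∈ t, pot (2 * Real.sqrt (∑ i ∈ A, (a i k) ^ 2)) 0 (∑ i ∈ A, (a i k) ^ 2) := by
    rw [Finset.mul_sum]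
    refine Finset.sum_congr rfl (fun k _ => ?_)
    set S := ∑ i ∈ A, (a i k) ^ 2 with hS
    have hS0 : 0 ≤ S := Finset.sum_nonneg (fun i _ => sq_nonneg _)
    unfold pot
    rcases hS0.eq_or_lt with h | h
    · rw [← h]; simp
    · have hs : 0 < Real.sqrt S := Real.sqrt_pos.2 h
      set σ := Real.sqrt S with hσ
      have hSσ : S = σ ^ 2 := (Real.sq_sqrt hS0).symm
      rw [hSσ]
      field_simp
      ring
  rw [h1]
  refine hle.trans (Finset.sum_le_sum fun k _ => ?_)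
  rw [zero_add]
  exact pot_le_abs (by positivity) _

lemma minkowski {ι κ : Type*} (A : Finset ι) (t : Finset κ) (a : ι → κ → ℝ) :
    ∑ i ∈ A, (∑ k ∈ t, |a i k|) ^ 2 ≤ (∑ k ∈ t, Real.sqrt (∑ i ∈ A, (a i k) ^ 2)) ^ 2 := by
  rw [sq, Finset.sum_mul_sum]
  have h1 : ∑ i ∈ A, (∑ k ∈ t, |a i k|) ^ 2 =
      ∑ k ∈ t, ∑ l ∈ t, ∑ i ∈ A, |a i k| * |a i l| := by
    simp_rw [sq, Finset.sum_mul_sum]
    rw [Finset.sum_comm]
    refine Finset.sum_congr rfl (fun k _ => ?_)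
    rw [Finset.sum_comm]
  rw [h1]
  refine Finset.sum_le_sum (fun k _ => Finset.sum_le_sum (fun l _ => ?_))
  have := Real.sum_mul_le_sqrt_mul_sqrt A (fun i => |a i k|) (fun i => |a i l|)
  simpa [sq_abs] using this

/-- Cotype 2 of `ℓ_1^N`, in the counting form needed here. -/
lemma count_dual {N : ℕ} {ι : Type*} (A : Finset ι) (v : ι → ((Fin N → ℝ) →L[ℝ] ℝ)) {C η : ℝ}
    (hC : 0 ≤ C) (hη : 0 < η)
    (hv : ∀ θ : ι → ℝ, (∀ i, θ i = 1 ∨ θ i = -1) → ‖∑ i ∈ A, θ i • v i‖ ^ 4 ≤ C * A.card)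
    (hη' : ∀ i ∈ A, η ≤ ‖v i‖) : (A.card : ℝ) ≤ (16 / 9) ^ 4 * C / η ^ 4 := by
  obtain ⟨θ, hθ, hle⟩ := khintchine A Finset.univ (fun i k => v i (Pi.single k 1))
  have h1 : ∑ k, |∑ i ∈ A, θ i * v i (Pi.single k 1)| ≤ ‖∑ i ∈ A, θ i • v i‖ := by
    refine le_trans (le_of_eq ?_) (le_dual_norm _)
    refine Finset.sum_congr rfl (fun k _ => ?_)
    congr 1
    rw [sum_apply]
    rfl
  have h2 := minkowski A Finset.univ (fun i k => v i (Pi.single k 1))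
  set Sg := ∑ k, Real.sqrt (∑ i ∈ A, (v i (Pi.single k 1)) ^ 2) with hSg
  have hSg0 : 0 ≤ Sg := Finset.sum_nonneg (fun _ _ => Real.sqrt_nonneg _)
  have h3 : (A.card : ℝ) * η ^ 2 ≤ Sg ^ 2 := by
    refine le_trans ?_ h2
    rw [← nsmul_eq_mul, ← Finset.sum_const]
    refine Finset.sum_le_sum (fun i hi => ?_)
    exact pow_le_pow_left₀ hη.le ((hη' i hi).trans (dual_norm_le _)) 2
  have h4 : (9 / 16) * Sg ≤ ‖∑ i ∈ A, θ i • v i‖ := hle.trans h1
  have h5 : ((9 / 16) * Sg) ^ 4 ≤ C * A.card :=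
    (pow_le_pow_left₀ (by positivity) h4 4).trans (hv θ hθ)
  have h6 : ((A.card : ℝ) * η ^ 2) ^ 2 ≤ (Sg ^ 2) ^ 2 := pow_le_pow_left₀ (by positivity) h3 2
  rcases Nat.eq_zero_or_pos A.card with h0 | hpos
  · rw [h0]; simp; positivity
  · have hcpos : (0 : ℝ) < A.card := by exact_mod_cast hpos
    rw [le_div_iff₀ (by positivity)]
    have h7 : (A.card : ℝ) ^ 2 * η ^ 4 * (9 / 16) ^ 4 ≤ C * A.card := by
      calc (A.card : ℝ) ^ 2 * η ^ 4 * (9 / 16) ^ 4 = (9 / 16) ^ 4 * ((A.card : ℝ) * η ^ 2) ^ 2 := by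
            ring
        _ ≤ (9 / 16) ^ 4 * (Sg ^ 2) ^ 2 := by
            exact mul_le_mul_of_nonneg_left h6 (by positivity)
        _ = ((9 / 16) * Sg) ^ 4 := by ring
        _ ≤ _ := h5
    have h8 : (A.card : ℝ) * ((A.card : ℝ) * η ^ 4 * (9 / 16) ^ 4) ≤ (A.card : ℝ) * C := by
      nlinarith
    have h9 := le_of_mul_le_mul_left h8 hcpos
    calc (A.card : ℝ) * η ^ 4 = (16 / 9) ^ 4 * ((A.card : ℝ) * η ^ 4 * (9 / 16) ^ 4) := by ring
      _ ≤ (16 / 9) ^ 4 * C := mul_le_mul_of_nonneg_left h9 (by positivity)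

end Pool.Agent.Work.MP_ebafbb_an
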