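import Mathlib

/-!
# The concrete Lipschitz-free space

* `Lip0 M o` : the Banach space `Lip₀(M)` of Lipschitz functions vanishing at the base point `o`,
  normed by the Lipschitz constant (the supremum of the slopes).
* `delta o x` : evaluation at `x`, as an element of the dual of `Lip₀(M)`.
* `LipFree M o` : the Lipschitz-free space, the closed linear span of the evaluations.
-/

set_option autoImplicit false

open Filter Topology

namespace Pool.Agent.Work.MP_ebafbb_an

section LipFree

variable (M : Type*) [MetricSpace M] (o : M)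

/-- The real vector space of Lipschitz functions `f : M → ℝ` with `f o = 0`. -/
def Lip0Sub : Submodule ℝ (M → ℝ) where
  carrier := {f | f o = 0 ∧ ∃ K : NNReal, LipschitzWith K f}
  zero_mem' := ⟨rfl, 0, LipschitzWith.const 0⟩
  add_mem' := by
    rintro f g ⟨hf, K, hK⟩ ⟨hg, K', hK'⟩
    exact ⟨by simp [hf, hg], K + K', hK.add hK'⟩
  smul_mem' := by
    rintro c f ⟨hf, K, hK⟩
    refine ⟨by simp [hf], ‖c‖₊ * K, ?_⟩
    refine LipschitzWith.of_dist_le_mul (fun x y => ?_)
    have h := hK.dist_le_mul x y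
    rw [Pi.smul_apply, Pi.smul_apply, dist_smul₀, NNReal.coe_mul, coe_nnnorm, mul_assoc]
    exact mul_le_mul_of_nonneg_left h (norm_nonneg c)

/-- The space `Lip₀(M)`. -/
def Lip0 : Type _ := Lip0Sub M o

instance : AddCommGroup (Lip0 M o) := inferInstanceAs (AddCommGroup (Lip0Sub M o))

instance : Module ℝ (Lip0 M o) := inferInstanceAs (Module ℝ (Lip0Sub M o))

instance : CoeFun (Lip0 M o) (fun _ => M → ℝ) := ⟨fun f => f.1⟩

/-- The norm of `Lip₀(M)` is the Lipschitz constant, i.e. the supremum of the slopes. -/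
noncomputable instance : Norm (Lip0 M o) :=
  ⟨fun f => ⨆ p : M × M, |f p.1 - f p.2| / dist p.1 p.2⟩

variable {M o}

lemma Lip0.norm_def (f : Lip0 M o) : ‖f‖ = ⨆ p : M × M, |f p.1 - f p.2| / dist p.1 p.2 := rfl

lemma Lip0.map_base (f : Lip0 M o) : f o = 0 := f.2.1

lemma Lip0.exists_lip (f : Lip0 M o) : ∃ K : NNReal, LipschitzWith K f := f.2.2

lemma Lip0.add_apply (f g : Lip0 M o) (x : M) : (f + g) x = f x + g x := rfl

lemma Lip0.smul_apply (c : ℝ) (f : Lip0 M o) (x : M) : (c • f) x = c * f x := rfl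

lemma Lip0.slope_le {f : Lip0 M o} {K : ℝ} (hK : 0 ≤ K)
    (h : ∀ x y, |f x - f y| ≤ K * dist x y) (p : M × M) :
    |f p.1 - f p.2| / dist p.1 p.2 ≤ K := by
  rcases (dist_nonneg (x := p.1) (y := p.2)).eq_or_lt with h0 | h0
  · rw [← h0, div_zero]; exact hK
  · rw [div_le_iff₀ h0]; exact h _ _

lemma Lip0.bddAbove (f : Lip0 M o) :
    BddAbove (Set.range fun p : M × M => |f p.1 - f p.2| / dist p.1 p.2) := by
  obtain ⟨K, hK⟩ := f.exists_lip
  refine ⟨K, ?_⟩
  rintro _ ⟨p, rfl⟩
  refine Lip0.slope_le K.coe_nonneg (fun x y => ?_) p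
  have := hK.dist_le_mul x y
  rwa [Real.dist_eq] at this

lemma Lip0.norm_nonneg' (f : Lip0 M o) : 0 ≤ ‖f‖ := by
  rw [Lip0.norm_def]
  exact Real.iSup_nonneg (fun p => div_nonneg (abs_nonneg _) dist_nonneg)

lemma Lip0.abs_sub_le (f : Lip0 M o) (x y : M) : |f x - f y| ≤ ‖f‖ * dist x y := by
  rcases (dist_nonneg (x := x) (y := y)).eq_or_lt with h0 | h0
  · have : x = y := dist_eq_zero.1 h0.symm
    subst this
    simp
  · rw [← div_le_iff₀ h0, Lip0.norm_def]
    exact le_ciSup f.bddAbove (x, y)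

lemma Lip0.norm_le {f : Lip0 M o} {K : ℝ} (hK : 0 ≤ K)
    (h : ∀ x y, |f x - f y| ≤ K * dist x y) : ‖f‖ ≤ K := by
  rw [Lip0.norm_def]
  exact Real.iSup_le (fun p => Lip0.slope_le hK h p) hK

lemma Lip0.ext' {f g : Lip0 M o} (h : ∀ x, f x = g x) : f = g :=
  Subtype.ext (funext h)

/-- `Lip₀(M)` is a normed space. -/
lemma Lip0.core : NormedSpace.Core ℝ (Lip0 M o) where
  norm_nonneg := Lip0.norm_nonneg'
  norm_smul := by
    intro c f
    have key : ∀ (c : ℝ) (f : Lip0 M o), ‖c • f‖ ≤ ‖c‖ * ‖f‖ := by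
      intro c f
      refine Lip0.norm_le (mul_nonneg (norm_nonneg c) (Lip0.norm_nonneg' f)) (fun x y => ?_)
      rw [Lip0.smul_apply, Lip0.smul_apply, ← mul_sub, abs_mul, Real.norm_eq_abs, mul_assoc]
      exact mul_le_mul_of_nonneg_left (f.abs_sub_le x y) (abs_nonneg c)
    refine le_antisymm (key c f) ?_
    rcases eq_or_ne c 0 with rfl | hc
    · simp [Lip0.norm_nonneg']
    · have h1 := key c⁻¹ (c • f)
      rw [smul_smul, inv_mul_cancel₀ hc, one_smul, norm_inv] at h1
      rwa [inv_mul_eq_div, le_div_iff₀ (norm_pos_iff.2 hc), mul_comm] at h1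
  norm_triangle := by
    intro f g
    refine Lip0.norm_le (add_nonneg (Lip0.norm_nonneg' f) (Lip0.norm_nonneg' g)) (fun x y => ?_)
    rw [Lip0.add_apply, Lip0.add_apply, add_mul]
    have e : f x + g x - (f y + g y) = (f x - f y) + (g x - g y) := by ring
    rw [e]
    exact (abs_add_le _ _).trans (add_le_add (f.abs_sub_le x y) (g.abs_sub_le x y))
  norm_eq_zero_iff := by
    intro f
    constructor
    · intro h
      refine Lip0.ext' (fun x => ?_)
      have h1 := f.abs_sub_le x o
      rw [h, zero_mul, f.map_base, sub_zero] at h1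
      exact abs_nonpos_iff.1 h1
    · rintro rfl
      refine le_antisymm (Lip0.norm_le le_rfl (fun x y => ?_)) (Lip0.norm_nonneg' _)
      have h0 : ∀ x, (0 : Lip0 M o) x = 0 := fun _ => rfl
      simp [h0]

noncomputable instance : NormedAddCommGroup (Lip0 M o) := NormedAddCommGroup.ofCore Lip0.core

noncomputable instance : NormedSpace ℝ (Lip0 M o) := NormedSpace.ofCore Lip0.core

/-- Evaluation at `x`, an element of `Lip₀(M)*`. -/
noncomputable def delta (o x : M) : StrongDual ℝ (Lip0 M o) :=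
  LinearMap.mkContinuous
    { toFun := fun f => f x
      map_add' := fun _ _ => rfl
      map_smul' := fun _ _ => rfl } (dist x o) (by
    intro f
    have h := f.abs_sub_le x o
    rw [f.map_base, sub_zero, mul_comm] at h
    exact h)

lemma delta_apply (x : M) (f : Lip0 M o) : delta o x f = f x := rfl

variable (M o)

/-- The Lipschitz-free space `F(M)`: the closed linear span of the evaluations in `Lip₀(M)*`. -/
noncomputable def LipFree : Submodule ℝ (StrongDual ℝ (Lip0 M o)) :=
  (Submodule.span ℝ (Set.range (delta o))).topologicalClosure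

end LipFree

end Pool.Agent.Work.MP_ebafbb_an
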