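import Pool.Agent.Work.MP_ebafbb_an.Core

set_option autoImplicit false

open Filter Topology
open scoped ENNReal

namespace Pool.Agent.Work.MP_ebafbb_an

/-- the exponent `4/3` -/
noncomputable def p43 : ℝ≥0∞ := 4 / 3

instance : Fact (1 ≤ p43) := ⟨by
  unfold p43
  rw [ENNReal.le_div_iff_mul_le (Or.inl (by norm_num)) (Or.inl (by norm_num))]
  norm_num⟩

lemma p43_toReal : p43.toReal = 4 / 3 := by
  unfold p43
  rw [ENNReal.toReal_div]
  norm_num

lemma p43_pos : 0 < p43.toReal := by rw [p43_toReal]; norm_num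

lemma p43_ne_top : p43 ≠ ∞ := by
  unfold p43
  exact ENNReal.div_ne_top (by norm_num) (by norm_num)

/-- the space `ℓ_{4/3}` -/
abbrev L43 : Type := lp (fun _ : ℕ => ℝ) p43

/-- unit vectors -/
noncomputable def e43 (n : ℕ) : L43 := lp.single p43 n (1 : ℝ)

/-- coordinates -/
noncomputable def c43 (n : ℕ) : L43 →L[ℝ] ℝ := lp.evalCLM ℝ (fun _ : ℕ => ℝ) p43 n

lemma c43_apply (n : ℕ) (v : L43) : c43 n v = v n := rfl

lemma single_eq_smul (n : ℕ) (a : ℝ) :
    (lp.single p43 n a : L43) = a • e43 n := by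
  unfold e43
  rw [← lp.single_smul, smul_eq_mul, mul_one]

/-- the unit vector basis of `ℓ_{4/3}` is a Schauder basis -/
noncomputable def basis43 : SchauderBasis ℝ L43 where
  basis := e43
  coord := c43
  ortho := by
    intro i j
    rw [c43_apply, e43, lp.single_apply]
    by_cases h : i = j
    · subst h; simp
    · simp [h]
  expansion := by
    intro x
    have h := lp.hasSum_single p43_ne_top x
    have h2 : (fun i => (c43 i) x • e43 i) = fun i => (lp.single p43 i (x i) : L43) := by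
      funext i
      rw [single_eq_smul, c43_apply]
    rw [h2]
    unfold HasSum at h ⊢
    exact h.mono_left (SummationFilter.LeAtTop.le_atTop)

variable {E : Type*} [NormedAddCommGroup E] [NormedSpace ℝ E]

lemma rpow_norm_sum (b : ℕ → ℝ) (t : Finset ℕ) :
    ‖∑ n ∈ t, b n • e43 n‖ ^ (4 / 3 : ℝ) = ∑ n ∈ t, |b n| ^ (4 / 3 : ℝ) := by
  have h := lp.norm_sum_single (E := fun _ : ℕ => ℝ) p43_pos b t
  simp_rw [single_eq_smul] at h
  rw [p43_toReal] at h
  simpa [Real.norm_eq_abs] using h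

lemma T4_of_map (T : L43 →L[ℝ] E) : T4 (fun n => T (e43 n)) (‖T‖ ^ 4) := by
  intro φ t
  set b : ℕ → ℝ := fun n => φ (T (e43 n)) with hb
  set W : ℝ := ∑ n ∈ t, (b n) ^ 4 with hW
  have hW0 : 0 ≤ W := Finset.sum_nonneg (fun n _ => by positivity)
  set v : L43 := ∑ n ∈ t, (b n) ^ 3 • e43 n with hv
  have h1 : φ (T v) = W := by
    rw [hv, map_sum, map_sum, hW]
    refine Finset.sum_congr rfl (fun n _ => ?_)
    rw [map_smul, map_smul, smul_eq_mul]
    change b n ^ 3 * b n = b n ^ 4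
    ring
  have h2 : ‖v‖ ^ (4 / 3 : ℝ) = W := by
    rw [hv, rpow_norm_sum (fun n => b n ^ 3) t, hW]
    refine Finset.sum_congr rfl (fun n _ => ?_)
    have h0 : |b n ^ 3| ^ (4 / 3 : ℝ) = |b n| ^ 4 := by
      rw [abs_pow, ← Real.rpow_natCast, ← Real.rpow_natCast, ← Real.rpow_mul (abs_nonneg _)]
      norm_num
    rw [h0, ← abs_pow, abs_of_nonneg (by positivity)]
  have h3 : W ≤ ‖φ‖ * (‖T‖ * ‖v‖) := by
    rw [← h1]
    refine (le_abs_self _).trans ?_
    rw [← Real.norm_eq_abs]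
    exact (φ.le_opNorm _).trans (mul_le_mul_of_nonneg_left (T.le_opNorm _) (norm_nonneg _))
  have h4 : ‖v‖ ^ 4 = W ^ 3 := by
    rw [← h2, ← Real.rpow_natCast, ← Real.rpow_natCast, ← Real.rpow_mul (norm_nonneg _)]
    norm_num
  have h5 : W ^ 4 ≤ (‖φ‖ * (‖T‖ * ‖v‖)) ^ 4 := pow_le_pow_left₀ hW0 h3 4
  have h6 : (‖φ‖ * (‖T‖ * ‖v‖)) ^ 4 = (‖T‖ ^ 4 * ‖φ‖ ^ 4) * W ^ 3 := by
    rw [← h4]; ring
  rw [h6] at h5
  rcases hW0.eq_or_lt with h | h
  · rw [← h]; positivity
  · have h7 : W * W ^ 3 ≤ (‖T‖ ^ 4 * ‖φ‖ ^ 4) * W ^ 3 := by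
      calc W * W ^ 3 = W ^ 4 := by ring
        _ ≤ _ := h5
    exact le_of_mul_le_mul_right h7 (by positivity)

lemma sum_abs_le (w : L43) (t : Finset ℕ) : ∑ n ∈ t, |w n| ≤ q4 (t.card) * ‖w‖ := by
  have hpq : (4 : ℝ).HolderConjugate (4 / 3) := by
    rw [Real.holderConjugate_iff]; norm_num
  have h1 := Real.inner_le_Lp_mul_Lq t (fun _ => (1 : ℝ)) (fun n => |w n|) hpq
  simp only [one_mul, abs_one, Real.one_rpow, Finset.sum_const, nsmul_eq_mul, mul_one,
    abs_abs] at h1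
  have h2 : (∑ n ∈ t, |w n| ^ (4 / 3 : ℝ)) ^ (1 / (4 / 3) : ℝ) ≤ ‖w‖ := by
    have h3 := lp.sum_rpow_le_norm_rpow p43_pos w t
    rw [p43_toReal] at h3
    have h4 : ∑ n ∈ t, |w n| ^ (4 / 3 : ℝ) ≤ ‖w‖ ^ (4 / 3 : ℝ) := by
      simpa [Real.norm_eq_abs] using h3
    calc (∑ n ∈ t, |w n| ^ (4 / 3 : ℝ)) ^ (1 / (4 / 3) : ℝ) ≤
          (‖w‖ ^ (4 / 3 : ℝ)) ^ (1 / (4 / 3) : ℝ) := by
            refine Real.rpow_le_rpow (Finset.sum_nonneg fun n _ => by positivity) h4 (by norm_num)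
      _ = ‖w‖ := by
          rw [← Real.rpow_mul (norm_nonneg _)]
          norm_num
  have h5 : ((t.card : ℝ)) ^ (1 / 4 : ℝ) = q4 t.card := by
    have h6 : ((t.card : ℝ) ^ (1 / 4 : ℝ)) ^ 4 = (q4 t.card) ^ 4 := by
      rw [q4_pow (by positivity), ← Real.rpow_natCast, ← Real.rpow_mul (by positivity)]
      norm_num
    exact (pow_left_inj₀ (by positivity) (q4_nonneg _) (by norm_num : (4 : ℕ) ≠ 0)).1 h6
  rw [← h5]
  refine h1.trans ?_
  exact mul_le_mul_of_nonneg_left h2 (by positivity)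

/-- **Main non-complementation theorem**: `ℓ_{4/3}` is not complemented in the free space. -/
theorem no_complemented_L43 {M : Type*} [MetricSpace M] {o : M} {δ : M → E} (H : IsFree o δ)
    (happ : LInfApprox M) (T : L43 →L[ℝ] E) (S : E →L[ℝ] L43) (hST : ∀ v, S (T v) = v) :
    False := by
  have hlipf : ∀ n, LipR ‖S‖ (fun x => c43 n (S (δ x))) := by
    intro n x y
    rw [← map_sub, ← map_sub]
    have h1 : |c43 n (S (δ x - δ y))| ≤ ‖S (δ x - δ y)‖ := by
      rw [c43_apply, ← Real.norm_eq_abs]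
      exact lp.norm_apply_le_norm (ne_of_gt (lt_of_lt_of_le one_pos (Fact.out : 1 ≤ p43))) _ n
    refine h1.trans ((S.le_opNorm _).trans (mul_le_mul_of_nonneg_left ?_ (norm_nonneg _)))
    rw [← dist_eq_norm]
    simpa using H.lip.dist_le_mul x y
  have hfo : ∀ n, (fun x => c43 n (S (δ x))) o = 0 := by
    intro n
    simp [H.zero]
  refine core H happ (T4_of_map T) (by positivity) (f := fun n x => c43 n (S (δ x)))
    (C := ‖S‖ ^ 4) (by positivity) ?_ hfo ?_
  · intro t θ hθ x y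
    rw [← Finset.sum_sub_distrib]
    have h1 : ∀ n ∈ t, |θ n * c43 n (S (δ x)) - θ n * c43 n (S (δ y))| =
        |(S (δ x - δ y) : L43) n| := by
      intro n _
      rw [← mul_sub, ← map_sub, ← map_sub, abs_mul, c43_apply]
      rcases hθ n with h | h <;> rw [h] <;> simp
    refine (Finset.abs_sum_le_sum_abs _ _).trans ?_
    rw [Finset.sum_congr rfl h1]
    refine (sum_abs_le _ t).trans ?_
    rw [q4_mul_pow ‖S‖ _ (norm_nonneg _)]
    have h2 : ‖S (δ x - δ y)‖ ≤ ‖S‖ * dist x y := by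
      refine (S.le_opNorm _).trans (mul_le_mul_of_nonneg_left ?_ (norm_nonneg _))
      rw [← dist_eq_norm]
      simpa using H.lip.dist_le_mul x y
    calc q4 (t.card) * ‖S (δ x - δ y)‖ ≤ q4 (t.card) * (‖S‖ * dist x y) :=
          mul_le_mul_of_nonneg_left h2 (q4_nonneg _)
      _ = ‖S‖ * q4 (t.card) * dist x y := by ring
  · intro n
    have h1 : ev δ (fun x => c43 n (S (δ x))) = (c43 n).comp S := H.ev_eq (fun x => rfl)
    rw [h1]
    change c43 n (S (T (e43 n))) = 1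
    rw [hST, c43_apply, e43, lp.single_apply, Pi.single_eq_same]

end Pool.Agent.Work.MP_ebafbb_an
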