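import Mathlib

/-!
# Pelczynski's universal basis space

* `EquivSeq x y` : equivalence of (basic) sequences.
* `IsPelczynskiSpace P` : `P` is a universal basis space in the sense of Pelczynski.
-/

set_option autoImplicit false

open Filter Topology

namespace Pool.Agent.Work.MP_ebafbb_an

/-- Two sequences are equivalent if `∑ aₙ xₙ` converges exactly when `∑ aₙ yₙ` does. -/
def EquivSeq {X Y : Type*} [NormedAddCommGroup X] [NormedSpace ℝ X]
    [NormedAddCommGroup Y] [NormedSpace ℝ Y] (x : ℕ → X) (y : ℕ → Y) : Prop :=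
  ∀ a : ℕ → ℝ,
    (∃ v : X, Tendsto (fun N => ∑ n ∈ Finset.range N, a n • x n) atTop (𝓝 v)) ↔
      (∃ w : Y, Tendsto (fun N => ∑ n ∈ Finset.range N, a n • y n) atTop (𝓝 w))

/-- `P` has a Schauder basis `u` such that every Schauder basis of every Banach space is
equivalent to a subsequence of `u` whose closed linear span is complemented in `P`. -/
def IsPelczynskiSpace (P : Type*) [NormedAddCommGroup P] [NormedSpace ℝ P] : Prop :=
  ∃ u : SchauderBasis ℝ P,
    ∀ (X : Type) [NormedAddCommGroup X] [NormedSpace ℝ X] [CompleteSpace X]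
      (x : SchauderBasis ℝ X),
      ∃ φ : ℕ → ℕ, StrictMono φ ∧ EquivSeq x.basis (fun n => u.basis (φ n)) ∧
        (Submodule.span ℝ (Set.range fun n => u.basis (φ n))).topologicalClosure.ClosedComplemented

end Pool.Agent.Work.MP_ebafbb_an
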