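import Pool.Agent.Work.MP_ebafbb_an.Defs
import Pool.Agent.Work.MP_ebafbb_an.PelczynskiDef
import Pool.Agent.Work.MP_ebafbb_an.L43
import Pool.Agent.Work.MP_ebafbb_an.C0

set_option autoImplicit false

open Filter Topology

namespace Pool.Agent.Work.MP_ebafbb_an

section

variable {M : Type*} [MetricSpace M] (o : M)

/-- the canonical map `M → F(M)` -/
noncomputable def deltaFree (x : M) : LipFree M o :=
  ⟨delta o x, Submodule.le_topologicalClosure _ (Submodule.subset_span ⟨x, rfl⟩)⟩

lemma isFree_lipFree : IsFree o (deltaFree o) where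
  zero := by
    apply Subtype.ext
    ext f
    change f o = 0
    exact f.map_base
  lip := by
    refine LipschitzWith.of_dist_le_mul (fun x y => ?_)
    rw [NNReal.coe_one, one_mul, Subtype.dist_eq, dist_eq_norm]
    refine ContinuousLinearMap.opNorm_le_bound _ dist_nonneg (fun f => ?_)
    change |f x - f y| ≤ dist x y * ‖f‖
    rw [mul_comm]
    exact f.abs_sub_le x y
  dense := by
    rw [Metric.dense_iff]
    rintro ⟨v, hv⟩ r hr
    obtain ⟨w, hw, hdist⟩ := Metric.mem_closure_iff.1 hv r hr
    have hw' : w ∈ Submodule.span ℝ (Set.range (delta o)) := hw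
    have key : ∀ w ∈ Submodule.span ℝ (Set.range (delta o)), ∃ w' : LipFree M o,
        w' ∈ Submodule.span ℝ (Set.range (deltaFree o)) ∧ (w' : StrongDual ℝ (Lip0 M o)) = w := by
      intro w hw
      induction hw using Submodule.span_induction with
      | mem x hx =>
        obtain ⟨y, rfl⟩ := hx
        exact ⟨deltaFree o y, Submodule.subset_span ⟨y, rfl⟩, rfl⟩
      | zero => exact ⟨0, Submodule.zero_mem _, rfl⟩
      | add x y _ _ hx hy =>
        obtain ⟨x', hx', rfl⟩ := hx
        obtain ⟨y', hy', rfl⟩ := hy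
        exact ⟨x' + y', Submodule.add_mem _ hx' hy', rfl⟩
      | smul a x _ hx =>
        obtain ⟨x', hx', rfl⟩ := hx
        exact ⟨a • x', Submodule.smul_mem _ a hx', rfl⟩
    obtain ⟨w', hw'1, hw'2⟩ := key w hw'
    refine ⟨w', ?_, hw'1⟩
    rw [Metric.mem_ball, Subtype.dist_eq, hw'2, dist_comm]
    exact hdist
  ext := by
    intro K f hf hfo
    set F : Lip0 M o := ⟨f, hfo, K, hf⟩ with hF
    have hFn : ‖F‖ ≤ K := by
      refine Lip0.norm_le K.coe_nonneg (fun x y => ?_)
      have := hf.dist_le_mul x y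
      rwa [Real.dist_eq] at this
    refine ⟨(ContinuousLinearMap.apply ℝ ℝ F).comp (LipFree M o).subtypeL, ?_, fun x => rfl⟩
    refine ContinuousLinearMap.opNorm_le_bound _ K.coe_nonneg (fun v => ?_)
    change ‖(v : StrongDual ℝ (Lip0 M o)) F‖ ≤ K * ‖v‖
    refine ((v : StrongDual ℝ (Lip0 M o)).le_opNorm F).trans ?_
    rw [mul_comm]
    exact mul_le_mul_of_nonneg_right hFn (norm_nonneg _)

end

section

variable {P : Type*} [NormedAddCommGroup P] [NormedSpace ℝ P] [CompleteSpace P]

/-- Every Banach space with a basis is isomorphic to a complemented subspace of `P`. -/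
lemma IsPelczynskiSpace.exists_maps (hP : IsPelczynskiSpace P) {X : Type}
    [NormedAddCommGroup X] [NormedSpace ℝ X] [CompleteSpace X] (x : SchauderBasis ℝ X) :
    ∃ (T : X →L[ℝ] P) (S : P →L[ℝ] X), ∀ v, S (T v) = v := by
  obtain ⟨u, hu⟩ := hP
  obtain ⟨φ, hφ, heq, hcomp⟩ := hu X x
  have hφt : Tendsto φ atTop atTop := hφ.tendsto_atTop
  set Y : Submodule ℝ P := (Submodule.span ℝ (Set.range fun n => u.basis (φ n))).topologicalClosure
    with hY
  obtain ⟨Q, hQ⟩ := hcomp
  have huY : ∀ n, u.basis (φ n) ∈ Y := fun n =>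
    Submodule.le_topologicalClosure _ (Submodule.subset_span ⟨n, rfl⟩)
  have hYclosed : IsClosed (Y : Set P) := Submodule.isClosed_topologicalClosure _
  -- expansions
  have hxexp : ∀ v : X, Tendsto (fun N => ∑ n ∈ Finset.range N, x.coord n v • x.basis n) atTop
      (𝓝 v) := by
    intro v
    have := SchauderBasis.tendsto_proj x v
    simpa [SchauderBasis.proj_apply] using this
  have huexp : ∀ w : P, Tendsto (fun N => ∑ n ∈ Finset.range N, u.coord n w • u.basis n) atTop
      (𝓝 w) := by
    intro w
    have := SchauderBasis.tendsto_proj u w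
    simpa [SchauderBasis.proj_apply] using this
  have hortho : ∀ i j, u.coord i (u.basis j) = if i = j then 1 else 0 := by
    intro i j
    rw [u.ortho]
    by_cases h : i = j
    · subst h; simp
    · simp [h]
  have hxortho : ∀ i j, x.coord i (x.basis j) = if i = j then 1 else 0 := by
    intro i j
    rw [x.ortho]
    by_cases h : i = j
    · subst h; simp
    · simp [h]
  -- the map T
  have hTex : ∀ v : X, ∃ w : P,
      Tendsto (fun N => ∑ n ∈ Finset.range N, x.coord n v • u.basis (φ n)) atTop (𝓝 w) :=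
    fun v => (heq (fun n => x.coord n v)).1 ⟨v, hxexp v⟩
  choose fT hfT using hTex
  set TN : ℕ → X →L[ℝ] P := fun N =>
    ∑ n ∈ Finset.range N, (x.coord n).smulRight (u.basis (φ n)) with hTN
  have hTNapp : ∀ N v, TN N v = ∑ n ∈ Finset.range N, x.coord n v • u.basis (φ n) := by
    intro N v
    rw [hTN]
    simp [sum_apply]
  have hTlim : Tendsto (fun N v => TN N v) atTop (𝓝 fT) := by
    rw [tendsto_pi_nhds]
    intro v
    simp_rw [hTNapp]
    exact hfT v
  set T : X →L[ℝ] P := continuousLinearMapOfTendsto TN hTlim with hTdef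
  have hTapp : ∀ v, T v = fT v := fun v => rfl
  -- the coordinates on Y
  have hzero : ∀ y ∈ Y, ∀ k, (∀ n, φ n ≠ k) → u.coord k y = 0 := by
    intro y hy k hk
    have hsub : (Y : Set P) ⊆ {y | u.coord k y = 0} := by
      have hcl : IsClosed {y : P | u.coord k y = 0} :=
        isClosed_eq (u.coord k).continuous continuous_const
      refine closure_minimal ?_ hcl
      intro z hz
      have hz' : z ∈ Submodule.span ℝ (Set.range fun n => u.basis (φ n)) := hz
      induction hz' using Submodule.span_induction with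
      | mem x hx =>
        obtain ⟨n, rfl⟩ := hx
        change u.coord k (u.basis (φ n)) = 0
        rw [hortho, if_neg (fun h => hk n h.symm)]
      | zero => simp
      | add a b _ _ ha hb =>
        have ha' := ha (by assumption)
        have hb' := hb (by assumption)
        simp only [Set.mem_ofPred_eq] at ha' hb' ⊢
        rw [map_add, ha', hb', add_zero]
      | smul c a _ ha =>
        have ha' := ha (by assumption)
        simp only [Set.mem_ofPred_eq] at ha' ⊢
        rw [map_smul, ha', smul_zero]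
    exact hsub hy
  have hYexp : ∀ y ∈ Y, Tendsto (fun N => ∑ n ∈ Finset.range N, u.coord (φ n) y • u.basis (φ n))
      atTop (𝓝 y) := by
    intro y hy
    have h1 := (huexp y).comp hφt
    refine h1.congr (fun N => ?_)
    change ∑ n ∈ Finset.range (φ N), u.coord n y • u.basis n = _
    rw [← Finset.sum_image (f := fun k => u.coord k y • u.basis k) (g := φ) (s := Finset.range N)
      (fun a _ b _ h => hφ.injective h)]
    symm
    refine Finset.sum_subset ?_ ?_
    · intro k hk
      obtain ⟨n, hn, rfl⟩ := Finset.mem_image.1 hk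
      exact Finset.mem_range.2 (hφ (Finset.mem_range.1 hn))
    · intro k hk hk'
      rw [hzero y hy k, zero_smul]
      intro n hn
      apply hk'
      refine Finset.mem_image.2 ⟨n, ?_, hn⟩
      rw [Finset.mem_range] at hk ⊢
      by_contra hc
      push Not at hc
      have := hφ.monotone hc
      omega
  -- the map S
  have hSex : ∀ w : P, ∃ v : X,
      Tendsto (fun N => ∑ n ∈ Finset.range N, u.coord (φ n) (Q w : P) • x.basis n) atTop (𝓝 v) :=
    fun w => (heq (fun n => u.coord (φ n) (Q w : P))).2 ⟨(Q w : P), hYexp _ (Q w).2⟩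
  choose fS hfS using hSex
  set SN : ℕ → P →L[ℝ] X := fun N =>
    ∑ n ∈ Finset.range N, ((u.coord (φ n)).comp (Y.subtypeL.comp Q)).smulRight (x.basis n) with hSN
  have hSNapp : ∀ N w, SN N w = ∑ n ∈ Finset.range N, u.coord (φ n) (Q w : P) • x.basis n := by
    intro N w
    rw [hSN]
    simp [sum_apply]
  have hSlim : Tendsto (fun N w => SN N w) atTop (𝓝 fS) := by
    rw [tendsto_pi_nhds]
    intro w
    simp_rw [hSNapp]
    exact hfS w
  set S : P →L[ℝ] X := continuousLinearMapOfTendsto SN hSlim with hSdef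
  have hSapp : ∀ w, S w = fS w := fun w => rfl
  refine ⟨T, S, fun v => ?_⟩
  have hTY : T v ∈ Y := by
    rw [hTapp]
    refine hYclosed.mem_of_tendsto (hfT v) (Eventually.of_forall fun N => ?_)
    exact Submodule.sum_mem _ (fun n _ => Submodule.smul_mem _ _ (huY n))
  have hQT : (Q (T v) : P) = T v := by
    have := hQ ⟨T v, hTY⟩
    exact congrArg Subtype.val this
  have hcoord : ∀ n, u.coord (φ n) (T v) = x.coord n v := by
    intro n
    have h1 : Tendsto (fun N => u.coord (φ n) (∑ k ∈ Finset.range N, x.coord k v • u.basis (φ k)))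
        atTop (𝓝 (u.coord (φ n) (T v))) := by
      rw [hTapp]
      exact ((u.coord (φ n)).continuous.tendsto _).comp (hfT v)
    refine tendsto_nhds_unique h1 (tendsto_const_nhds.congr' ?_)
    filter_upwards [eventually_gt_atTop n] with N hN
    rw [map_sum, Finset.sum_eq_single n]
    · rw [map_smul, hortho, if_pos rfl, smul_eq_mul, mul_one]
    · intro k _ hk
      rw [map_smul, hortho, if_neg (fun h => hk (hφ.injective h).symm), smul_zero]
    · intro h
      exact absurd (Finset.mem_range.2 hN) h
  have h2 : Tendsto (fun N => ∑ n ∈ Finset.range N, x.coord n v • x.basis n) atTop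
      (𝓝 (S (T v))) := by
    have h3 := hfS (T v)
    rw [← hSapp] at h3
    refine h3.congr (fun N => Finset.sum_congr rfl (fun n _ => ?_))
    rw [hQT, hcoord]
  exact tendsto_nhds_unique h2 (hxexp v)

/-- A free space over `c₀` (given by its universal property) is not isomorphic to `P`. -/
theorem not_iso_of_isFree {E : Type*} [NormedAddCommGroup E] [NormedSpace ℝ E]
    {δ : ZeroAtInftyContinuousMap ℕ ℝ → E} (H : IsFree 0 δ) (hP : IsPelczynskiSpace P) :
    ¬ Nonempty (E ≃L[ℝ] P) := by
  rintro ⟨Φ⟩
  obtain ⟨T, S, hST⟩ := hP.exists_maps basis43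
  refine no_complemented_L43 H c0_approx
    ((Φ.symm : P →L[ℝ] _).comp T) (S.comp (Φ : _ →L[ℝ] P)) (fun v => ?_)
  change S (Φ (Φ.symm (T v))) = v
  rw [Φ.apply_symm_apply, hST]

/-- `F(c₀)` (closed span of the evaluations in `Lip₀(c₀)*`) is not isomorphic to `P`. -/
theorem not_iso_c0 (hP : IsPelczynskiSpace P) :
    ¬ Nonempty (LipFree (ZeroAtInftyContinuousMap ℕ ℝ) 0 ≃L[ℝ] P) :=
  not_iso_of_isFree (isFree_lipFree (0 : ZeroAtInftyContinuousMap ℕ ℝ)) hP

end

end Pool.Agent.Work.MP_ebafbb_an
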