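import Pool.Agent.Work.MP_ebafbb_an.Basic

set_option autoImplicit false

open Filter Topology

namespace Pool.Agent.Work.MP_ebafbb_an

/-- Greedy choice of signs: fourth powers of signed sums dominate sums of fourth powers. -/
lemma exists_signs {ι κ : Type*} (s : Finset ι) (t : Finset κ) (a : ι → κ → ℝ) :
    ∃ θ : ι → ℝ, (∀ i, θ i = 1 ∨ θ i = -1) ∧
      ∑ n ∈ t, ∑ i ∈ s, (a i n) ^ 4 ≤ ∑ n ∈ t, (∑ i ∈ s, θ i * a i n) ^ 4 := by
  classical
  induction s using Finset.induction_on with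
  | empty => exact ⟨fun _ => 1, fun _ => Or.inl rfl, by simp⟩
  | insert j s hj ih =>
    obtain ⟨θ, hθ, hle⟩ := ih
    have key : ∀ c : ℝ, (c = 1 ∨ c = -1) →
        (∀ i, Function.update θ j c i = 1 ∨ Function.update θ j c i = -1) ∧
        ∑ n ∈ t, (∑ i ∈ insert j s, Function.update θ j c i * a i n) ^ 4 =
          ∑ n ∈ t, (c * a j n + ∑ i ∈ s, θ i * a i n) ^ 4 := by
      intro c hc
      constructor
      · intro i
        by_cases h : i = j
        · subst h; simpa using hc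
        · simpa [Function.update_of_ne h] using hθ i
      · refine Finset.sum_congr rfl (fun n _ => ?_)
        rw [Finset.sum_insert hj, Function.update_self]
        congr 2
        refine Finset.sum_congr rfl (fun i hi => ?_)
        rw [Function.update_of_ne (ne_of_mem_of_not_mem hi hj)]
    have hsum : 2 * (∑ n ∈ t, ∑ i ∈ insert j s, (a i n) ^ 4) ≤
        ∑ n ∈ t, (1 * a j n + ∑ i ∈ s, θ i * a i n) ^ 4 +
          ∑ n ∈ t, (-1 * a j n + ∑ i ∈ s, θ i * a i n) ^ 4 := by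
      have h1 : ∑ n ∈ t, ∑ i ∈ insert j s, (a i n) ^ 4 =
          ∑ n ∈ t, (a j n) ^ 4 + ∑ n ∈ t, ∑ i ∈ s, (a i n) ^ 4 := by
        rw [← Finset.sum_add_distrib]
        exact Finset.sum_congr rfl (fun n _ => Finset.sum_insert hj)
      rw [h1]
      have h2 : 2 * (∑ n ∈ t, (a j n) ^ 4 + ∑ n ∈ t, (∑ i ∈ s, θ i * a i n) ^ 4) ≤
          ∑ n ∈ t, (1 * a j n + ∑ i ∈ s, θ i * a i n) ^ 4 +
            ∑ n ∈ t, (-1 * a j n + ∑ i ∈ s, θ i * a i n) ^ 4 := by
        rw [← Finset.sum_add_distrib, ← Finset.sum_add_distrib, Finset.mul_sum]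
        refine Finset.sum_le_sum (fun n _ => ?_)
        nlinarith [mul_nonneg (sq_nonneg (a j n)) (sq_nonneg (∑ i ∈ s, θ i * a i n))]
      linarith
    rcases le_total (∑ n ∈ t, (1 * a j n + ∑ i ∈ s, θ i * a i n) ^ 4)
        (∑ n ∈ t, (-1 * a j n + ∑ i ∈ s, θ i * a i n) ^ 4) with h | h
    · refine ⟨Function.update θ j (-1), (key (-1) (Or.inr rfl)).1, ?_⟩
      rw [(key (-1) (Or.inr rfl)).2]
      linarith
    · refine ⟨Function.update θ j 1, (key 1 (Or.inl rfl)).1, ?_⟩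
      rw [(key 1 (Or.inl rfl)).2]
      linarith

variable {M : Type*} [MetricSpace M]
variable {E : Type*} [NormedAddCommGroup E] [NormedSpace ℝ E]

/-- The dual estimate satisfied by the images of the unit vectors of `ℓ_{4/3}`. -/
def T4 (m : ℕ → E) (A : ℝ) : Prop :=
  ∀ (φ : E →L[ℝ] ℝ) (t : Finset ℕ), ∑ n ∈ t, (φ (m n)) ^ 4 ≤ A * ‖φ‖ ^ 4

lemma pairing_bound {o : M} {δ : M → E} (H : IsFree o δ) {m : ℕ → E} {A : ℝ} (hT : T4 m A)
    (hA : 0 ≤ A) {ι : Type*} (s : Finset ι) {h : ι → M → ℝ} {Kf : ι → ℝ}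
    (hK : ∀ i ∈ s, 0 ≤ Kf i) (hh : ∀ i ∈ s, LipR (Kf i) (h i)) (ho : ∀ i ∈ s, h i o = 0)
    {K : ℝ} (hK0 : 0 ≤ K) (hsum : ∀ x y, ∑ i ∈ s, |h i x - h i y| ≤ K * dist x y)
    (t : Finset ℕ) :
    ∑ n ∈ t, ∑ i ∈ s, (ev δ (h i) (m n)) ^ 4 ≤ A * K ^ 4 := by
  obtain ⟨θ, hθ, hle⟩ := exists_signs s t (fun i n => ev δ (h i) (m n))
  refine hle.trans ?_
  have hLip : LipR K (fun x => ∑ i ∈ s, θ i * h i x) := by
    intro x y
    rw [← Finset.sum_sub_distrib]
    refine (Finset.abs_sum_le_sum_abs _ _).trans (le_trans ?_ (hsum x y))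
    refine Finset.sum_le_sum (fun i _ => ?_)
    rw [← mul_sub, abs_mul]
    rcases hθ i with h1 | h1 <;> rw [h1] <;> simp
  have hLo : (fun x => ∑ i ∈ s, θ i * h i x) o = 0 := by
    refine Finset.sum_eq_zero (fun i hi => ?_)
    rw [ho i hi, mul_zero]
  have hev := H.ev_sum s θ hh hK ho
  have hn := (H.ev_spec hLip hK0 hLo).1
  have h1 := hT (ev δ (fun x => ∑ i ∈ s, θ i * h i x)) t
  have h2 : ∑ n ∈ t, (ev δ (fun x => ∑ i ∈ s, θ i * h i x) (m n)) ^ 4 =
      ∑ n ∈ t, (∑ i ∈ s, θ i * ev δ (h i) (m n)) ^ 4 := by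
    refine Finset.sum_congr rfl (fun n _ => ?_)
    rw [hev, sum_apply]
    simp [smul_apply]
  rw [← h2]
  refine h1.trans (mul_le_mul_of_nonneg_left ?_ hA)
  exact pow_le_pow_left₀ (norm_nonneg _) hn 4

lemma pairing_bound' {o : M} {δ : M → E} (H : IsFree o δ) {m : ℕ → E} {A : ℝ} (hT : T4 m A)
    (hA : 0 ≤ A) {ι : Type*} (s : Finset ι) {h : ι → M → ℝ} {Kf : ι → ℝ}
    (hK : ∀ i ∈ s, 0 ≤ Kf i) (hh : ∀ i ∈ s, LipR (Kf i) (h i)) (ho : ∀ i ∈ s, h i o = 0)
    {K : ℝ} (hK0 : 0 ≤ K) (hsum : ∀ x y, ∑ i ∈ s, |h i x - h i y| ≤ K * dist x y)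
    (n : ι → ℕ) :
    ∑ i ∈ s, (ev δ (h i) (m (n i))) ^ 4 ≤ A * K ^ 4 := by
  classical
  refine le_trans ?_ (pairing_bound H hT hA s hK hh ho hK0 hsum (s.image n))
  rw [Finset.sum_comm]
  refine Finset.sum_le_sum (fun i hi => ?_)
  exact Finset.single_le_sum (f := fun k => (ev δ (h i) (m k)) ^ 4)
    (fun k _ => by positivity) (Finset.mem_image_of_mem n hi)

/-- Families of Lipschitz functions with bounded overlap are weakly unconditionally summable. -/
lemma overlap_sum {ι : Type*} (s : Finset ι) {h : ι → M → ℝ} {K : ℝ} (hK : 0 ≤ K)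
    (hh : ∀ i ∈ s, LipR K (h i)) {R : ℝ}
    (hR : ∀ x, (((s.filter (fun i => h i x ≠ 0)).card : ℕ) : ℝ) ≤ R) (x y : M) :
    ∑ i ∈ s, |h i x - h i y| ≤ 2 * R * K * dist x y := by
  classical
  have hKd : 0 ≤ K * dist x y := mul_nonneg hK dist_nonneg
  have h1 : ∀ i ∈ s, |h i x - h i y| ≤
      (if h i x ≠ 0 then K * dist x y else 0) + (if h i y ≠ 0 then K * dist x y else 0) := by
    intro i hi
    have h2 := hh i hi x y
    by_cases hx : h i x ≠ 0
    · rw [if_pos hx]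
      split_ifs <;> linarith
    · by_cases hy : h i y ≠ 0
      · rw [if_neg hx, if_pos hy]; linarith
      · rw [if_neg hx, if_neg hy]
        push Not at hx hy
        rw [hx, hy]; simp
  refine (Finset.sum_le_sum h1).trans ?_
  rw [Finset.sum_add_distrib, ← Finset.sum_filter, ← Finset.sum_filter, Finset.sum_const,
    Finset.sum_const, nsmul_eq_mul, nsmul_eq_mul]
  have := mul_le_mul_of_nonneg_right (hR x) hKd
  have := mul_le_mul_of_nonneg_right (hR y) hKd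
  nlinarith

/-- Among many Lipschitz weights with bounded overlap one is negligible. -/
lemma exists_negligible {o : M} {δ : M → E} (H : IsFree o δ) {m : ℕ → E} {A : ℝ} (hT : T4 m A)
    (hA : 0 ≤ A) {ι : Type*} (t : Finset ι) {β : ι → M → ℝ} {Λ : ι → ℝ}
    (hΛ : ∀ i ∈ t, 0 ≤ Λ i) (hβ : ∀ i ∈ t, LipR (Λ i) (β i)) (hβ0 : ∀ i ∈ t, ∀ x, 0 ≤ β i x)
    (hβ1 : ∀ i ∈ t, ∀ x, β i x ≤ 1)
    {R : ℝ} (hR0 : 0 < R) (hR : ∀ x, ∑ i ∈ t, β i x ≤ R) {L ε : ℝ} (hL : 0 < L) (hε : 0 < ε)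
    (hcard : A * (2 * L * R) ^ 4 < (t.card : ℝ) * ε ^ 4) :
    ∃ i ∈ t, ∃ r : ℝ, 0 < r ∧ ∀ h : M → ℝ, LipR L h → h o = 0 → (∀ x, |h x| ≤ r) →
      ∀ j, |ev δ (fun x => β i x * h x) (m j)| ≤ ε := by
  classical
  by_contra hcon
  push Not at hcon
  set r : ℝ := L * R / (1 + ∑ i ∈ t, Λ i) with hr
  have hΛs : 0 ≤ ∑ i ∈ t, Λ i := Finset.sum_nonneg hΛ
  have hrpos : 0 < r := by rw [hr]; positivity
  choose! h hLip hho hhr j hj using fun i (hi : i ∈ t) => hcon i hi r hrpos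
  have hLipβ : ∀ i ∈ t, LipR (1 * L + r * Λ i) (fun x => β i x * h i x) := by
    intro i hi
    refine LipR.mul (hβ i hi) (fun x => ?_) (hLip i hi) (hhr i hi)
    rw [abs_of_nonneg (hβ0 i hi x)]
    exact hβ1 i hi x
  have hsum : ∀ x y, ∑ i ∈ t, |β i x * h i x - β i y * h i y| ≤ (2 * L * R) * dist x y := by
    intro x y
    have h1 : ∀ i ∈ t, |β i x * h i x - β i y * h i y| ≤
        (β i x * L + r * Λ i) * dist x y := by
      intro i hi
      have e : β i x * h i x - β i y * h i y =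
          β i x * (h i x - h i y) + h i y * (β i x - β i y) := by ring
      rw [e, add_mul]
      refine (abs_add_le _ _).trans (add_le_add ?_ ?_)
      · rw [abs_mul, abs_of_nonneg (hβ0 i hi x), mul_assoc]
        exact mul_le_mul_of_nonneg_left (hLip i hi x y) (hβ0 i hi x)
      · rw [abs_mul, mul_assoc]
        exact mul_le_mul (hhr i hi y) (hβ i hi x y) (abs_nonneg _) hrpos.le
    refine (Finset.sum_le_sum h1).trans ?_
    rw [← Finset.sum_mul, Finset.sum_add_distrib, ← Finset.sum_mul, ← Finset.mul_sum]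
    refine mul_le_mul_of_nonneg_right ?_ dist_nonneg
    have h2 : r * ∑ i ∈ t, Λ i ≤ L * R := by
      rw [hr, div_mul_eq_mul_div, div_le_iff₀ (by positivity)]
      have : 0 ≤ L * R := by positivity
      nlinarith
    have h3 : (∑ i ∈ t, β i x) * L ≤ R * L := mul_le_mul_of_nonneg_right (hR x) hL.le
    nlinarith
  have hB := pairing_bound' H hT hA t (h := fun i x => β i x * h i x)
    (Kf := fun i => 1 * L + r * Λ i)
    (fun i hi => by have := hΛ i hi; positivity) hLipβ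
    (fun i hi => by simp [hho i hi]) (K := 2 * L * R) (by positivity) hsum j
  have hlow : (t.card : ℝ) * ε ^ 4 ≤
      ∑ i ∈ t, (ev δ (fun x => β i x * h i x) (m (j i))) ^ 4 := by
    rw [← nsmul_eq_mul, ← Finset.sum_const]
    refine Finset.sum_le_sum (fun i hi => ?_)
    have := (hj i hi).le
    calc ε ^ 4 ≤ |ev δ (fun x => β i x * h i x) (m (j i))| ^ 4 :=
          pow_le_pow_left₀ hε.le this 4
      _ = _ := by rw [← abs_pow, abs_of_nonneg (by positivity)]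
  linarith

end Pool.Agent.Work.MP_ebafbb_an
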