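import Pool.Agent.Work.MP_ebafbb_an.Basic

set_option autoImplicit false

open Filter Topology MeasureTheory
open scoped Convolution

namespace Pool.Agent.Work.MP_ebafbb_an

lemma LipR.continuous {M : Type*} [MetricSpace M] {L : ℝ} {h : M → ℝ} (hh : LipR L h) :
    Continuous h :=
  ((hh.mono (le_max_left L 0)).lipschitzWith (le_max_right L 0)).continuous

section

variable {G : Type*} [NormedAddCommGroup G] [NormedSpace ℝ G] [FiniteDimensional ℝ G]
  [MeasurableSpace G] [BorelSpace G] (μ : Measure G) [μ.IsAddHaarMeasure]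

/-- the smoothing kernel of radius `r` -/
noncomputable def bump (G : Type*) [NormedAddCommGroup G] [NormedSpace ℝ G]
    [FiniteDimensional ℝ G] (r : ℝ) (hr : 0 < r) : ContDiffBump (0 : G) :=
  ⟨r / 2, r, half_pos hr, half_lt_self hr⟩

/-- smoothing by convolution with a bump function of radius `r` -/
noncomputable def smooth (r : ℝ) (hr : 0 < r) (h : G → ℝ) : G → ℝ :=
  ((bump G r hr).normed μ ⋆[ContinuousLinearMap.lsmul ℝ ℝ, μ] h)

lemma smooth_exists (r : ℝ) (hr : 0 < r) {h : G → ℝ} (hc : Continuous h)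
    (x : G) :
    Integrable (fun t => (bump G r hr).normed μ t * h (x - t)) μ := by
  have := ((bump G r hr).hasCompactSupport_normed (μ := μ)).convolutionExists_left
    (ContinuousLinearMap.lsmul ℝ ℝ) (bump G r hr).continuous_normed
    (hc.locallyIntegrable (μ := μ)) x
  simpa [ConvolutionExistsAt] using this

lemma smooth_apply (r : ℝ) (hr : 0 < r) (h : G → ℝ) (x : G) :
    smooth μ r hr h x = ∫ t, (bump G r hr).normed μ t * h (x - t) ∂μ := by
  simp [smooth, convolution_def]

lemma smooth_close (r : ℝ) (hr : 0 < r) {L : ℝ} (hL : 0 ≤ L) {h : G → ℝ}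
    (hh : LipR L h) (x : G) : |smooth μ r hr h x - h x| ≤ L * r := by
  have hc := hh.continuous
  have := (ContDiffBump.dist_normed_convolution_le (φ := bump G r hr) (μ := μ)
    (x₀ := x) (ε := L * r) hc.aestronglyMeasurable (fun y hy => by
      rw [Real.dist_eq]
      refine (hh y x).trans (mul_le_mul_of_nonneg_left ?_ hL)
      have : dist y x < r := hy
      exact this.le))
  rwa [Real.dist_eq] at this

lemma smooth_lip (r : ℝ) (hr : 0 < r) {L : ℝ} {h : G → ℝ}
    (hh : LipR L h) : LipR L (smooth μ r hr h) := by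
  intro x y
  have hc := hh.continuous
  rw [smooth_apply, smooth_apply, ← integral_sub (smooth_exists μ r hr hc x)
    (smooth_exists μ r hr hc y), ← Real.norm_eq_abs]
  have h1 : ∫ t, (bump G r hr).normed μ t * (L * dist x y) ∂μ = L * dist x y := by
    rw [integral_mul_const, ContDiffBump.integral_normed, one_mul]
  rw [← h1]
  refine norm_integral_le_of_norm_le ?_ (Eventually.of_forall fun t => ?_)
  · exact ((bump G r hr).integrable_normed (μ := μ)).mul_const _
  · rw [← mul_sub, norm_mul, Real.norm_eq_abs, Real.norm_eq_abs,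
      abs_of_nonneg ((bump G r hr).nonneg_normed t)]
    refine mul_le_mul_of_nonneg_left ?_ ((bump G r hr).nonneg_normed t)
    refine (hh _ _).trans (le_of_eq ?_)
    rw [dist_sub_right]

lemma smooth_hasFDerivAt (r : ℝ) (hr : 0 < r) {h : G → ℝ}
    (hc : Continuous h) (x : G) :
    HasFDerivAt (smooth μ r hr h)
      ((fderiv ℝ ((bump G r hr).normed μ) ⋆[
        ContinuousLinearMap.precompL G (ContinuousLinearMap.lsmul ℝ ℝ), μ] h) x) x :=
  HasCompactSupport.hasFDerivAt_convolution_left (ContinuousLinearMap.lsmul ℝ ℝ)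
    ((bump G r hr).hasCompactSupport_normed (μ := μ))
    ((bump G r hr).contDiff_normed (n := 1)) (hc.locallyIntegrable (μ := μ)) x

lemma smooth_fderiv_norm_le (r : ℝ) (hr : 0 < r) {L : ℝ} (hL : 0 ≤ L) {h : G → ℝ}
    (hh : LipR L h) (x : G) : ‖fderiv ℝ (smooth μ r hr h) x‖ ≤ L := by
  have := norm_fderiv_le_of_lipschitz ℝ (x₀ := x) ((smooth_lip μ r hr hh).lipschitzWith hL)
  rwa [Real.coe_toNNReal L hL] at this

lemma precompL_lsmul_norm_le (u : G →L[ℝ] ℝ) (a : ℝ) :
    ‖(ContinuousLinearMap.precompL G (ContinuousLinearMap.lsmul ℝ ℝ : ℝ →L[ℝ] ℝ →L[ℝ] ℝ)) u a‖ ≤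
      ‖u‖ * |a| := by
  refine ContinuousLinearMap.opNorm_le_bound _ (by positivity) (fun v => ?_)
  rw [ContinuousLinearMap.precompL_apply, ContinuousLinearMap.lsmul_apply, norm_smul,
    Real.norm_eq_abs a]
  have := u.le_opNorm v
  have ha := abs_nonneg a
  nlinarith

lemma smooth_fderiv_lip (r : ℝ) (hr : 0 < r) : ∃ Λ : ℝ, 0 ≤ Λ ∧ ∀ (L : ℝ) (h : G → ℝ),
    0 ≤ L → LipR L h → ∀ x y, ‖fderiv ℝ (smooth μ r hr h) x - fderiv ℝ (smooth μ r hr h) y‖ ≤
      Λ * L * dist x y := by
  set ψ := fderiv ℝ ((bump G r hr).normed μ) with hψ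
  have hcs : HasCompactSupport ψ :=
    ((bump G r hr).hasCompactSupport_normed (μ := μ)).fderiv ℝ
  have hψc : Continuous ψ :=
    ((bump G r hr).contDiff_normed (n := 1) (μ := μ)).continuous_fderiv one_ne_zero
  have hint : Integrable (fun t => ‖ψ t‖) μ :=
    (hψc.integrable_of_hasCompactSupport hcs).norm
  have hI : 0 ≤ ∫ t, ‖ψ t‖ ∂μ := integral_nonneg (fun _ => norm_nonneg _)
  refine ⟨∫ t, ‖ψ t‖ ∂μ, hI, fun L h hL hh x y => ?_⟩
  have hc := hh.continuous
  rw [(smooth_hasFDerivAt μ r hr hc x).fderiv, (smooth_hasFDerivAt μ r hr hc y).fderiv]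
  have hex := fun z => hcs.convolutionExists_left
    (ContinuousLinearMap.precompL G (ContinuousLinearMap.lsmul ℝ ℝ : ℝ →L[ℝ] ℝ →L[ℝ] ℝ))
    hψc (hc.locallyIntegrable (μ := μ)) z
  have hx := hex x
  have hy := hex y
  unfold ConvolutionExistsAt at hx hy
  rw [convolution_def, convolution_def, ← integral_sub hx hy]
  have h1 : (∫ t, ‖ψ t‖ ∂μ) * L * dist x y =
      ∫ t, ‖ψ t‖ * (L * dist x y) ∂μ := by
    rw [integral_mul_const]; ring
  rw [h1]
  refine norm_integral_le_of_norm_le (hint.mul_const _) (Eventually.of_forall fun t => ?_)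
  rw [← map_sub]
  refine (precompL_lsmul_norm_le _ _).trans ?_
  refine mul_le_mul_of_nonneg_left ?_ (norm_nonneg _)
  refine (hh _ _).trans (le_of_eq ?_)
  rw [dist_sub_right]

lemma smooth_sum (r : ℝ) (hr : 0 < r) {ι : Type*} (s : Finset ι) (c : ι → ℝ)
    {h : ι → G → ℝ} (hc : ∀ i ∈ s, Continuous (h i)) :
    smooth μ r hr (fun x => ∑ i ∈ s, c i * h i x) =
      fun x => ∑ i ∈ s, c i * smooth μ r hr (h i) x := by
  funext x
  rw [smooth_apply]
  simp_rw [smooth_apply, ← integral_const_mul]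
  rw [← integral_finsetSum]
  · congr 1
    funext t
    rw [Finset.mul_sum]
    exact Finset.sum_congr rfl (fun i _ => by ring)
  · intro i hi
    exact (smooth_exists μ r hr (hc i hi) x).const_mul _

lemma smooth_fderiv_sum (r : ℝ) (hr : 0 < r) {ι : Type*} (s : Finset ι) (c : ι → ℝ)
    {h : ι → G → ℝ} (hc : ∀ i ∈ s, Continuous (h i)) (x : G) :
    fderiv ℝ (smooth μ r hr (fun x => ∑ i ∈ s, c i * h i x)) x =
      ∑ i ∈ s, c i • fderiv ℝ (smooth μ r hr (h i)) x := by
  rw [smooth_sum μ r hr s c hc]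
  have h1 : HasFDerivAt (fun x => ∑ i ∈ s, c i * smooth μ r hr (h i) x)
      (∑ i ∈ s, c i • fderiv ℝ (smooth μ r hr (h i)) x) x := by
    refine HasFDerivAt.fun_sum (fun i hi => ?_)
    have := smooth_hasFDerivAt μ r hr (hc i hi) x
    rw [this.fderiv]
    exact this.const_mul (c i)
  exact h1.fderiv

/-- local estimate -/
lemma smooth_local (r : ℝ) (hr : 0 < r) {L : ℝ} (hL : 0 ≤ L) {h : G → ℝ}
    (hh : LipR L h) {η : ℝ} (hη : 0 < η) : ∃ t : ℝ, 0 < t ∧ ∀ x y, dist x y ≤ t →
      |smooth μ r hr h x - smooth μ r hr h y| ≤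
        (‖fderiv ℝ (smooth μ r hr h) x‖ + η) * dist x y := by
  obtain ⟨Λ, hΛ, hΛL⟩ := smooth_fderiv_lip μ r hr
  refine ⟨η / (Λ * L + 1), by positivity, fun x y hxy => ?_⟩
  have hbound : ∀ z ∈ segment ℝ x y, ‖fderiv ℝ (smooth μ r hr h) z‖ ≤
      ‖fderiv ℝ (smooth μ r hr h) x‖ + η := by
    intro z hz
    have h1 : dist x z ≤ dist x y := by
      have := dist_add_dist_of_mem_segment hz
      have h0 : 0 ≤ dist z y := dist_nonneg
      linarith
    have h2 := hΛL L h hL hh z x
    have h3 : Λ * L * dist z x ≤ η := by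
      rw [dist_comm]
      calc Λ * L * dist x z ≤ Λ * L * (η / (Λ * L + 1)) :=
            mul_le_mul_of_nonneg_left (h1.trans hxy) (by positivity)
        _ = (Λ * L) / (Λ * L + 1) * η := by ring
        _ ≤ 1 * η := by
            refine mul_le_mul_of_nonneg_right ?_ hη.le
            rw [div_le_one (by positivity)]; linarith
        _ = η := one_mul η
    have h4 : ‖fderiv ℝ (smooth μ r hr h) z‖ ≤ ‖fderiv ℝ (smooth μ r hr h) x‖ +
        ‖fderiv ℝ (smooth μ r hr h) z - fderiv ℝ (smooth μ r hr h) x‖ := by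
      have := norm_add_le (fderiv ℝ (smooth μ r hr h) x)
        (fderiv ℝ (smooth μ r hr h) z - fderiv ℝ (smooth μ r hr h) x)
      simpa using this
    linarith
  have hd : ∀ z ∈ segment ℝ x y, HasFDerivWithinAt (smooth μ r hr h)
      (fderiv ℝ (smooth μ r hr h) z) (segment ℝ x y) z := by
    intro z _
    have := smooth_hasFDerivAt μ r hr hh.continuous z
    rw [this.fderiv]
    exact this.hasFDerivWithinAt
  have := Convex.norm_image_sub_le_of_norm_hasFDerivWithin_le hd hbound (convex_segment x y)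
    (right_mem_segment ℝ x y) (left_mem_segment ℝ x y)
  rwa [Real.norm_eq_abs, ← dist_eq_norm] at this

end

end Pool.Agent.Work.MP_ebafbb_an
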