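import Pool.Agent.Work.MP_ebafbb_an.Tail
import Pool.Agent.Work.MP_ebafbb_an.Cotype
import Pool.Agent.Work.MP_ebafbb_an.Smooth

set_option autoImplicit false

open Filter Topology MeasureTheory

namespace Pool.Agent.Work.MP_ebafbb_an

variable {M : Type*} [MetricSpace M]
variable {E : Type*} [NormedAddCommGroup E] [NormedSpace ℝ E]

/-- clamp to `[0,1]` -/
noncomputable def clamp (u : ℝ) : ℝ := max 0 (min 1 u)

lemma clamp_nonneg (u : ℝ) : 0 ≤ clamp u := le_max_left _ _

lemma clamp_le_one (u : ℝ) : clamp u ≤ 1 := max_le zero_le_one (min_le_left _ _)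

lemma clamp_of_nonpos {u : ℝ} (h : u ≤ 0) : clamp u = 0 :=
  max_eq_left ((min_le_right _ _).trans h)

lemma clamp_of_one_le {u : ℝ} (h : 1 ≤ u) : clamp u = 1 := by
  unfold clamp
  rw [min_eq_left h, max_eq_right zero_le_one]

lemma abs_clamp_sub_le (u v : ℝ) : |clamp u - clamp v| ≤ |u - v| := by
  unfold clamp
  have h1 := abs_max_sub_max_le_max (0 : ℝ) (min 1 u) 0 (min 1 v)
  have h2 := abs_min_sub_min_le_max (1 : ℝ) u 1 v
  have h3 : max |(0 : ℝ) - 0| |min 1 u - min 1 v| = |min 1 u - min 1 v| := by simp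
  have h4 : max |(1 : ℝ) - 1| |u - v| = |u - v| := by simp
  rw [h3] at h1
  rw [h4] at h2
  exact h1.trans h2

/-- `M` is a pointwise limit of `1`-Lipschitz maps factoring through finite dimensional `ℓ_∞`. -/
def LInfApprox (M : Type*) [MetricSpace M] : Prop :=
  ∃ (N : ℕ → ℕ) (π : ∀ k, M → (Fin (N k) → ℝ)) (ι : ∀ k, (Fin (N k) → ℝ) → M),
    (∀ k, LipschitzWith 1 (π k)) ∧ (∀ k, LipschitzWith 1 (ι k)) ∧
      ∀ x, Tendsto (fun k => ι k (π k x)) atTop (𝓝 x)

lemma count_values {f : ℕ → M → ℝ} {B : ℝ} (hB0 : 0 ≤ B) (hB : B4 f B) {κ : ℝ} (hκ : 0 < κ)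
    (x : M) (t : Finset ℕ) (ht : ∀ n ∈ t, κ ≤ |f n x|) : (t.card : ℝ) ≤ B / κ ^ 4 := by
  have h1 := hB t (fun n => if 0 ≤ f n x then 1 else -1)
    (fun n => by split_ifs <;> simp) x
  have h2 : ∑ n ∈ t, (if 0 ≤ f n x then (1 : ℝ) else -1) * f n x = ∑ n ∈ t, |f n x| := by
    refine Finset.sum_congr rfl (fun n _ => ?_)
    split_ifs with h
    · rw [one_mul, abs_of_nonneg h]
    · rw [abs_of_neg (not_le.1 h)]; ring
  rw [h2] at h1
  have h3 : (t.card : ℝ) * κ ≤ ∑ n ∈ t, |f n x| := by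
    rw [← nsmul_eq_mul, ← Finset.sum_const]
    exact Finset.sum_le_sum ht
  have h4 : (t.card : ℝ) * κ ≤ q4 (B * t.card) := h3.trans ((le_abs_self _).trans h1)
  have h5 : ((t.card : ℝ) * κ) ^ 4 ≤ B * t.card := by
    rw [← q4_pow (x := B * t.card) (by positivity)]
    exact pow_le_pow_left₀ (by positivity) h4 4
  rcases Nat.eq_zero_or_pos t.card with h0 | hpos
  · rw [h0]; simp; positivity
  · have hc : (1 : ℝ) ≤ t.card := by exact_mod_cast hpos
    have hcp : (0 : ℝ) < t.card := by linarith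
    rw [le_div_iff₀ (by positivity)]
    have h6 : (t.card : ℝ) * ((t.card : ℝ) ^ 3 * κ ^ 4) ≤ (t.card : ℝ) * B := by
      calc (t.card : ℝ) * ((t.card : ℝ) ^ 3 * κ ^ 4) = ((t.card : ℝ) * κ) ^ 4 := by ring
        _ ≤ B * t.card := h5
        _ = _ := by ring
    have h7 := le_of_mul_le_mul_left h6 hcp
    have h8 : (t.card : ℝ) ≤ (t.card : ℝ) ^ 3 := by
      calc (t.card : ℝ) = (t.card : ℝ) ^ 1 := (pow_one _).symm
        _ ≤ (t.card : ℝ) ^ 3 := pow_le_pow_right₀ hc (by norm_num)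
    have h9 : 0 < κ ^ 4 := by positivity
    nlinarith

/-- truncating the values at any positive level is harmless for all but finitely many `n` -/
lemma trunc_good {o : M} {δ : M → E} (H : IsFree o δ) {m : ℕ → E} {A B C : ℝ} (hT : T4 m A)
    (hA : 0 ≤ A) {f : ℕ → M → ℝ} (hS : S4 f C) (hB0 : 0 ≤ B) (hB : B4 f B)
    (hfo : ∀ n, f n o = 0) {κ : ℝ} (hκ : 0 < κ) {ε : ℝ} (hε : 0 < ε) :
    {n : ℕ | ε < |ev δ (fun x => f n x - trunc κ (f n x)) (m n)|}.Finite := by
  by_contra hinf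
  have hinf : {n : ℕ | ε < |ev δ (fun x => f n x - trunc κ (f n x)) (m n)|}.Infinite := hinf
  have hLip : ∀ n, LipR (q4 C) (fun x => f n x - trunc κ (f n x)) := by
    intro n x y
    exact (abs_sub_trunc_sub_le κ _ _ hκ.le).trans (hS.single n x y)
  obtain ⟨J, hJ⟩ := exists_nat_gt (A * (2 * (B / κ ^ 4) * q4 C) ^ 4 / ε ^ 4)
  rw [div_lt_iff₀ (by positivity)] at hJ
  obtain ⟨t, htsub, htcard⟩ := hinf.exists_subset_card_eq J
  have hov := overlap_sum t (h := fun n x => f n x - trunc κ (f n x)) (q4_nonneg C)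
    (fun i _ => hLip i) (R := B / κ ^ 4) (by
      intro x
      refine count_values hB0 hB hκ x _ (fun n hn => ?_)
      rw [Finset.mem_filter] at hn
      by_contra hc
      push Not at hc
      exact hn.2 (by rw [trunc_of_abs_le hc.le, sub_self]))
  have hp := pairing_bound' H hT hA t (h := fun n x => f n x - trunc κ (f n x))
    (Kf := fun _ => q4 C) (fun _ _ => q4_nonneg C) (fun i _ => hLip i)
    (fun i _ => by simp [hfo, trunc_zero hκ.le]) (K := 2 * (B / κ ^ 4) * q4 C)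
    (by have := q4_nonneg C; positivity) hov (fun n => n)
  have hlow : (J : ℝ) * ε ^ 4 ≤
      ∑ i ∈ t, (ev δ (fun x => f i x - trunc κ (f i x)) (m i)) ^ 4 := by
    rw [← htcard, ← nsmul_eq_mul, ← Finset.sum_const]
    refine Finset.sum_le_sum (fun i hi => ?_)
    have h1 : ε < |ev δ (fun x => f i x - trunc κ (f i x)) (m i)| := htsub hi
    calc ε ^ 4 ≤ |ev δ (fun x => f i x - trunc κ (f i x)) (m i)| ^ 4 :=
          pow_le_pow_left₀ hε.le h1.le 4
      _ = _ := by rw [← abs_pow, abs_of_nonneg (by positivity)]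
  linarith

/-- The main one-step lemma. -/
lemma step {o : M} {δ : M → E} (H : IsFree o δ) (happ : LInfApprox M) {m : ℕ → E} {A B C : ℝ}
    (hT : T4 m A) (hA : 0 ≤ A) {f : ℕ → M → ℝ} (hC : 0 ≤ C) (hS : S4 f C) (hB0 : 0 ≤ B)
    (hB : B4 f B) (hfo : ∀ n, f n o = 0) (hpair : ∀ n, 7 / 8 ≤ ev δ (f n) (m n))
    {κ ε η L' : ℝ} (hκ : 0 < κ) (hε : 0 < ε) (hη : 0 < η) (hL' : 0 < L') :
    ∃ (g V : M → ℝ) (n : ℕ) (t Λ : ℝ), 0 < t ∧ 0 ≤ Λ ∧ g o = 0 ∧ (∀ x, |g x| ≤ κ) ∧
      LipR (q4 C) g ∧ 5 / 8 ≤ ev δ g (m n) ∧ (∀ x, 0 ≤ V x) ∧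
      LipR Λ (fun x => clamp (V x / η - 1)) ∧
      (∀ x y, dist x y ≤ t → |g x - g y| ≤ (V x + η) * dist x y) ∧
      ∃ r : ℝ, 0 < r ∧ ∀ h : M → ℝ, LipR L' h → h o = 0 → (∀ x, |h x| ≤ r) →
        ∀ j, |ev δ (fun x => clamp (V x / η - 1) * h x) (m j)| ≤ ε := by
  obtain ⟨N, π, ι, hπ, hι, hlim⟩ := happ
  have hqC := q4_nonneg C
  -- the counting constant
  set R : ℝ := (16 / 9) ^ 4 * C / η ^ 4 + 1 with hR
  have hRpos : 0 < R := by positivity
  obtain ⟨J, hJ⟩ := exists_nat_gt (A * (2 * L' * R) ^ 4 / ε ^ 4)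
  rw [div_lt_iff₀ (by positivity)] at hJ
  -- good indices for truncation
  have hgood := trunc_good H hT hA hS hB0 hB hfo hκ (show (0 : ℝ) < 1 / 8 by norm_num)
  obtain ⟨t, htsub, htcard⟩ := hgood.infinite_compl.exists_subset_card_eq J
  -- Lipschitz functions on finite dimensional spaces
  have hG : ∀ k n, LipR (q4 C) (fun z : Fin (N k) → ℝ => f n (ι k z)) := by
    intro k n z w
    refine (hS.single n _ _).trans (mul_le_mul_of_nonneg_left ?_ hqC)
    simpa using (hι k).dist_le_mul z w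
  have hrk : ∀ k : ℕ, (0 : ℝ) < 1 / ((k : ℝ) + 1) := fun k => Nat.one_div_pos_of_nat
  set sm : ∀ (k n : ℕ), (Fin (N k) → ℝ) → ℝ := fun k n =>
    smooth volume (1 / ((k : ℝ) + 1)) (hrk k) (fun z => f n (ι k z)) with hsm
  set g0 : ℕ → ℕ → M → ℝ := fun k n x => sm k n (π k x) - sm k n (π k o) with hg0
  have hg0lip : ∀ k n, LipR (q4 C) (g0 k n) := by
    intro k n x y
    have h1 := smooth_lip volume (1 / ((k : ℝ) + 1)) (hrk k) (hG k n) (π k x) (π k y)
    have h2 : g0 k n x - g0 k n y = sm k n (π k x) - sm k n (π k y) := by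
      rw [hg0]; ring
    rw [h2]
    refine h1.trans (mul_le_mul_of_nonneg_left ?_ hqC)
    simpa using (hπ k).dist_le_mul x y
  have hg0o : ∀ k n, g0 k n o = 0 := fun k n => sub_self _
  have hsmlim : ∀ n x, Tendsto (fun k => sm k n (π k x)) atTop (𝓝 (f n x)) := by
    intro n x
    have h1 : Tendsto (fun k : ℕ => q4 C * (1 / ((k : ℝ) + 1)) + q4 C * dist (ι k (π k x)) x)
        atTop (𝓝 (q4 C * 0 + q4 C * 0)) := by
      refine Tendsto.add ?_ ?_
      · exact (tendsto_one_div_add_atTop_nhds_zero_nat).const_mul _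
      · exact (tendsto_iff_dist_tendsto_zero.1 (hlim x)).const_mul _
    simp only [mul_zero, add_zero] at h1
    rw [tendsto_iff_dist_tendsto_zero]
    refine squeeze_zero (fun _ => dist_nonneg) (fun k => ?_) h1
    rw [Real.dist_eq]
    have h2 := smooth_close volume (1 / ((k : ℝ) + 1)) (hrk k) hqC (hG k n) (π k x)
    have h3 := hS.single n (ι k (π k x)) x
    have h4 : sm k n (π k x) - f n x = (sm k n (π k x) - f n (ι k (π k x))) +
        (f n (ι k (π k x)) - f n x) := by ring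
    rw [h4]
    exact (abs_add_le _ _).trans (add_le_add h2 h3)
  have hg0lim : ∀ n x, Tendsto (fun k => g0 k n x) atTop (𝓝 (f n x)) := by
    intro n x
    have := (hsmlim n x).sub (hsmlim n o)
    rwa [hfo n, sub_zero] at this
  have htrlim : ∀ n, Tendsto (fun k => ev δ (fun x => trunc κ (g0 k n x)) (m n)) atTop
      (𝓝 (ev δ (fun x => trunc κ (f n x)) (m n))) := by
    intro n
    refine H.ev_tendsto hqC ((hS.single n).trunc) (by simp [hfo, trunc_zero hκ.le])
      (fun k => (hg0lip k n).trunc) (fun k => by simp [hg0o, trunc_zero hκ.le]) (fun x => ?_) _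
    rw [tendsto_iff_dist_tendsto_zero]
    refine squeeze_zero (fun _ => dist_nonneg) (fun k => ?_)
      (tendsto_iff_dist_tendsto_zero.1 (hg0lim n x))
    rw [Real.dist_eq, Real.dist_eq]
    exact abs_trunc_sub_le _ _ _
  have hev : ∀ᶠ k in atTop, ∀ n ∈ t, dist (ev δ (fun x => trunc κ (g0 k n x)) (m n))
      (ev δ (fun x => trunc κ (f n x)) (m n)) < 1 / 8 := by
    rw [Filter.eventually_all_finset]
    intro n _
    exact (Metric.tendsto_nhds.1 (htrlim n)) (1 / 8) (by norm_num)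
  obtain ⟨k, hk⟩ := hev.exists
  -- gradient norms
  set V : ℕ → M → ℝ := fun n x => ‖fderiv ℝ (sm k n) (π k x)‖ with hV
  obtain ⟨Λ, hΛ0, hΛ⟩ := smooth_fderiv_lip (volume : Measure (Fin (N k) → ℝ))
    (1 / ((k : ℝ) + 1)) (hrk k)
  have hVlip : ∀ n, LipR (Λ * q4 C) (V n) := by
    intro n x y
    have h1 := hΛ (q4 C) _ hqC (hG k n) (π k x) (π k y)
    have h2 : dist (π k x) (π k y) ≤ dist x y := by simpa using (hπ k).dist_le_mul x y
    refine (abs_norm_sub_norm_le _ _).trans (h1.trans ?_)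
    exact mul_le_mul_of_nonneg_left h2 (by positivity)
  have hβlip : ∀ n, LipR (Λ * q4 C / η) (fun x => clamp (V n x / η - 1)) := by
    intro n x y
    refine (abs_clamp_sub_le _ _).trans ?_
    have h1 : V n x / η - 1 - (V n y / η - 1) = (V n x - V n y) / η := by ring
    rw [h1, abs_div, abs_of_pos hη, div_mul_eq_mul_div]
    exact div_le_div_of_nonneg_right (hVlip n x y) hη.le
  have hcount : ∀ x, ∀ s : Finset ℕ, (∀ n ∈ s, η ≤ V n x) →
      (s.card : ℝ) ≤ (16 / 9) ^ 4 * C / η ^ 4 := by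
    intro x s hs
    refine count_dual s (fun n => fderiv ℝ (sm k n) (π k x)) hC hη (fun θ hθ => ?_) hs
    have h1 := smooth_fderiv_sum (volume : Measure (Fin (N k) → ℝ)) (1 / ((k : ℝ) + 1)) (hrk k) s θ
      (h := fun n z => f n (ι k z)) (fun n _ => (hG k n).continuous) (π k x)
    rw [← h1]
    have h2 : LipR (q4 (C * s.card)) (fun z : Fin (N k) → ℝ => ∑ n ∈ s, θ n * f n (ι k z)) := by
      intro z w
      refine (hS s θ hθ (ι k z) (ι k w)).trans (mul_le_mul_of_nonneg_left ?_ (q4_nonneg _))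
      simpa using (hι k).dist_le_mul z w
    have h3 := smooth_fderiv_norm_le volume (1 / ((k : ℝ) + 1)) (hrk k) (q4_nonneg _) h2 (π k x)
    calc _ ≤ (q4 (C * s.card)) ^ 4 := pow_le_pow_left₀ (norm_nonneg _) h3 4
      _ = _ := q4_pow (by positivity)
  have hβsum : ∀ x, ∑ n ∈ t, clamp (V n x / η - 1) ≤ R := by
    intro x
    have h1 : ∑ n ∈ t, clamp (V n x / η - 1) ≤ ∑ n ∈ t, if η ≤ V n x then (1 : ℝ) else 0 := by
      refine Finset.sum_le_sum (fun n _ => ?_)
      split_ifs with h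
      · exact clamp_le_one _
      · push Not at h
        rw [clamp_of_nonpos]
        have : V n x / η ≤ 1 := by rw [div_le_one hη]; exact h.le
        linarith
    refine h1.trans ?_
    rw [← Finset.sum_filter, Finset.sum_const, nsmul_eq_mul, mul_one]
    have := hcount x (t.filter (fun n => η ≤ V n x)) (fun n hn => (Finset.mem_filter.1 hn).2)
    rw [hR]; linarith
  obtain ⟨n, hnt, r, hr, hneg⟩ := exists_negligible H hT hA t
    (β := fun n x => clamp (V n x / η - 1)) (Λ := fun _ => Λ * q4 C / η)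
    (fun _ _ => by positivity) (fun n _ => hβlip n) (fun n _ x => clamp_nonneg _)
    (fun n _ x => clamp_le_one _) hRpos hβsum hL' hε (by rw [htcard]; exact hJ)
  obtain ⟨t₀, ht₀, hloc⟩ := smooth_local volume (1 / ((k : ℝ) + 1)) (hrk k) hqC (hG k n) hη
  refine ⟨fun x => trunc κ (g0 k n x), V n, n, t₀, Λ * q4 C / η, ht₀, by positivity,
    by simp [hg0o, trunc_zero hκ.le], fun x => abs_trunc_le hκ.le _, (hg0lip k n).trunc, ?_,
    fun x => norm_nonneg _, hβlip n, ?_, r, hr, hneg⟩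
  · have h1 := hk n hnt
    have h2 : |ev δ (fun x => f n x - trunc κ (f n x)) (m n)| ≤ 1 / 8 := by
      have := htsub hnt
      simpa using this
    have h3 : ev δ (fun x => f n x - trunc κ (f n x)) (m n) =
        ev δ (f n) (m n) - ev δ (fun x => trunc κ (f n x)) (m n) := by
      rw [H.ev_sub (hS.single n) hqC (hfo n) ((hS.single n).trunc) hqC
        (by simp [hfo, trunc_zero hκ.le])]
      rfl
    rw [h3] at h2
    rw [Real.dist_eq] at h1
    have h4 := hpair n
    rw [abs_le] at h2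
    rw [abs_lt] at h1
    linarith [h1.1, h2.2]
  · intro x y hxy
    refine (abs_trunc_sub_le _ _ _).trans ?_
    have h2 : g0 k n x - g0 k n y = sm k n (π k x) - sm k n (π k y) := by
      rw [hg0]; ring
    rw [h2]
    have h3 : dist (π k x) (π k y) ≤ dist x y := by simpa using (hπ k).dist_le_mul x y
    refine (hloc (π k x) (π k y) (h3.trans hxy)).trans ?_
    refine mul_le_mul_of_nonneg_left h3 ?_
    have : 0 ≤ V n x := norm_nonneg _
    positivity

end Pool.Agent.Work.MP_ebafbb_an
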