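import Pool.Agent.Work.MP_ebafbb_an.Signs

set_option autoImplicit false

open Filter Topology

namespace Pool.Agent.Work.MP_ebafbb_an

variable {M : Type*} [MetricSpace M]
variable {E : Type*} [NormedAddCommGroup E] [NormedSpace ℝ E]

lemma q4_mul_pow (c x : ℝ) (hc : 0 ≤ c) : q4 (c ^ 4 * x) = c * q4 x := by
  unfold q4
  rw [Real.sqrt_mul (by positivity), show c ^ 4 = (c ^ 2) ^ 2 by ring,
    Real.sqrt_sq (by positivity), Real.sqrt_mul (by positivity), Real.sqrt_sq hc]

lemma q4_mono {x y : ℝ} (h : x ≤ y) : q4 x ≤ q4 y := Real.sqrt_le_sqrt (Real.sqrt_le_sqrt h)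

/-- signed sums of the coordinate functions have small Lipschitz constants -/
def S4 (f : ℕ → M → ℝ) (C : ℝ) : Prop :=
  ∀ (t : Finset ℕ) (θ : ℕ → ℝ), (∀ n, θ n = 1 ∨ θ n = -1) →
    LipR (q4 (C * t.card)) (fun x => ∑ n ∈ t, θ n * f n x)

/-- signed sums of the coordinate functions are bounded -/
def B4 (f : ℕ → M → ℝ) (B : ℝ) : Prop :=
  ∀ (t : Finset ℕ) (θ : ℕ → ℝ), (∀ n, θ n = 1 ∨ θ n = -1) →
    ∀ x, |∑ n ∈ t, θ n * f n x| ≤ q4 (B * t.card)

lemma S4.single {f : ℕ → M → ℝ} {C : ℝ} (h : S4 f C) (n : ℕ) : LipR (q4 C) (f n) := by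
  have := h {n} (fun _ => 1) (fun _ => Or.inl rfl)
  simpa using this

/-- radial cut-off -/
noncomputable def cut (o : M) (R : ℝ) (x : M) : ℝ := max 0 (min 1 (2 - dist x o / R))

lemma cut_nonneg (o : M) (R : ℝ) (x : M) : 0 ≤ cut o R x := le_max_left _ _

lemma cut_le_one (o : M) (R : ℝ) (x : M) : cut o R x ≤ 1 :=
  max_le zero_le_one (min_le_left _ _)

lemma cut_eq_one {o : M} {R : ℝ} (hR : 0 < R) {x : M} (h : dist x o ≤ R) : cut o R x = 1 := by
  unfold cut
  have : dist x o / R ≤ 1 := by rwa [div_le_one hR]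
  rw [min_eq_left (by linarith), max_eq_right zero_le_one]

lemma cut_eq_zero {o : M} {R : ℝ} (hR : 0 < R) {x : M} (h : 2 * R ≤ dist x o) :
    cut o R x = 0 := by
  unfold cut
  have : 2 ≤ dist x o / R := by rwa [le_div_iff₀ hR]
  rw [max_eq_left]
  exact (min_le_right _ _).trans (by linarith)

lemma cut_lip {o : M} {R : ℝ} (hR : 0 < R) (x y : M) :
    |cut o R x - cut o R y| ≤ dist x y / R := by
  unfold cut
  have h1 := abs_max_sub_max_le_max (0 : ℝ) (min 1 (2 - dist x o / R)) 0
    (min 1 (2 - dist y o / R))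
  have h2 := abs_min_sub_min_le_max (1 : ℝ) (2 - dist x o / R) 1 (2 - dist y o / R)
  have h3 : max |(0 : ℝ) - 0| |min 1 (2 - dist x o / R) - min 1 (2 - dist y o / R)| =
      |min 1 (2 - dist x o / R) - min 1 (2 - dist y o / R)| := by simp
  have h4 : max |(1 : ℝ) - 1| |(2 - dist x o / R) - (2 - dist y o / R)| =
      |(2 - dist x o / R) - (2 - dist y o / R)| := by simp
  rw [h3] at h1
  rw [h4] at h2
  refine h1.trans (h2.trans ?_)
  have h5 : (2 - dist x o / R) - (2 - dist y o / R) = (dist y o - dist x o) / R := by ring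
  rw [h5, abs_div, abs_of_pos hR]
  refine div_le_div_of_nonneg_right ?_ hR.le
  have := abs_dist_sub_le y x o
  rwa [dist_comm y x] at this

lemma cut_mul_lip {o : M} {R K : ℝ} (hR : 0 < R) (hK : 0 ≤ K) {F : M → ℝ} (hF : LipR K F)
    (hFo : F o = 0) : LipR (3 * K) (fun x => cut o R x * F x) := by
  have key : ∀ x y : M, dist x o ≤ dist y o →
      |cut o R x * F x - cut o R y * F y| ≤ 3 * K * dist x y := by
    intro x y hxy
    by_cases h : 2 * R ≤ dist x o
    · rw [cut_eq_zero hR h, cut_eq_zero hR (h.trans hxy)]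
      simp
      positivity
    · push Not at h
      have e : cut o R x * F x - cut o R y * F y =
          cut o R y * (F x - F y) + F x * (cut o R x - cut o R y) := by ring
      rw [e]
      have h1 : |cut o R y * (F x - F y)| ≤ K * dist x y := by
        rw [abs_mul, abs_of_nonneg (cut_nonneg _ _ _)]
        calc cut o R y * |F x - F y| ≤ 1 * (K * dist x y) :=
              mul_le_mul (cut_le_one _ _ _) (hF x y) (abs_nonneg _) zero_le_one
          _ = _ := one_mul _
      have h2 : |F x| ≤ K * (2 * R) := by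
        have := hF x o
        rw [hFo, sub_zero] at this
        exact this.trans (mul_le_mul_of_nonneg_left h.le hK)
      have h3 : |F x * (cut o R x - cut o R y)| ≤ 2 * K * dist x y := by
        rw [abs_mul]
        calc |F x| * |cut o R x - cut o R y| ≤ (K * (2 * R)) * (dist x y / R) :=
              mul_le_mul h2 (cut_lip hR x y) (abs_nonneg _) (by positivity)
          _ = 2 * K * dist x y := by field_simp
      calc |cut o R y * (F x - F y) + F x * (cut o R x - cut o R y)| ≤
            |cut o R y * (F x - F y)| + |F x * (cut o R x - cut o R y)| := abs_add_le _ _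
        _ ≤ K * dist x y + 2 * K * dist x y := add_le_add h1 h3
        _ = 3 * K * dist x y := by ring
  intro x y
  rcases le_total (dist x o) (dist y o) with h | h
  · exact key x y h
  · have := key y x h
    rw [abs_sub_comm, dist_comm y x] at this
    exact this

lemma cut_mul_bdd {o : M} {R K : ℝ} (hR : 0 < R) (hK : 0 ≤ K) {F : M → ℝ} (hF : LipR K F)
    (hFo : F o = 0) (x : M) : |cut o R x * F x| ≤ 2 * R * K := by
  by_cases h : 2 * R ≤ dist x o
  · rw [cut_eq_zero hR h]; simp; positivity
  · push Not at h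
    rw [abs_mul, abs_of_nonneg (cut_nonneg _ _ _)]
    have h2 : |F x| ≤ K * (2 * R) := by
      have := hF x o
      rw [hFo, sub_zero] at this
      exact this.trans (mul_le_mul_of_nonneg_left h.le hK)
    calc cut o R x * |F x| ≤ 1 * (K * (2 * R)) :=
          mul_le_mul (cut_le_one _ _ _) h2 (abs_nonneg _) zero_le_one
      _ = _ := by ring

/-- The part of the functions near infinity is invisible to `m`. -/
lemma tail {o : M} {δ : M → E} (H : IsFree o δ) {m : ℕ → E} {A C : ℝ} (hT : T4 m A)
    (hA : 0 ≤ A) {f : ℕ → M → ℝ} (hS : S4 f C) (hfo : ∀ n, f n o = 0) {ε : ℝ} (hε : 0 < ε) :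
    ∃ R : ℝ, 0 < R ∧ ∀ n, |ev δ (fun x => f n x - cut o R x * f n x) (m n)| ≤ ε := by
  by_contra hcon
  push Not at hcon
  have hK : 0 ≤ q4 C := q4_nonneg C
  have hcl : ∀ R : ℝ, 0 < R → ∀ n, LipR (3 * q4 C) (fun x => cut o R x * f n x) :=
    fun R hR n => cut_mul_lip hR hK (hS.single n) (hfo n)
  -- find the outer radius
  have step : ∀ R : ℝ, 0 < R → ∃ (n : ℕ) (R' : ℝ), R ≤ R' ∧
      ε < |ev δ (fun x => cut o R' x * f n x - cut o R x * f n x) (m n)| := by
    intro R hR
    obtain ⟨n, hn⟩ := hcon R hR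
    have hlim : Tendsto (fun R' : ℝ => ev δ (fun x => cut o (max R' R) x * f n x) (m n)) atTop
        (𝓝 (ev δ (f n) (m n))) := by
      refine H.ev_tendsto (K := 3 * q4 C) (by positivity) ((hS.single n).mono (by linarith))
        (hfo n) (fun R' => hcl _ (lt_of_lt_of_le hR (le_max_right _ _)) n)
        (fun R' => by simp [hfo n]) (fun x => ?_) (m n)
      refine tendsto_const_nhds.congr' ?_
      filter_upwards [eventually_ge_atTop (dist x o)] with R' hR'
      rw [cut_eq_one (lt_of_lt_of_le hR (le_max_right _ _)) (hR'.trans (le_max_left _ _)), one_mul]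
    have hlim2 : Tendsto (fun R' : ℝ => |ev δ (fun x => cut o (max R' R) x * f n x -
        cut o R x * f n x) (m n)|) atTop
        (𝓝 |ev δ (fun x => f n x - cut o R x * f n x) (m n)|) := by
      have e1 : ∀ R' : ℝ, ev δ (fun x => cut o (max R' R) x * f n x - cut o R x * f n x) (m n) =
          ev δ (fun x => cut o (max R' R) x * f n x) (m n) -
            ev δ (fun x => cut o R x * f n x) (m n) := by
        intro R'
        rw [H.ev_sub (hcl _ (lt_of_lt_of_le hR (le_max_right _ _)) n) (by positivity)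
          (by simp [hfo n]) (hcl R hR n) (by positivity) (by simp [hfo n])]
        rfl
      have e2 : ev δ (fun x => f n x - cut o R x * f n x) (m n) =
          ev δ (f n) (m n) - ev δ (fun x => cut o R x * f n x) (m n) := by
        rw [H.ev_sub (hS.single n) hK (hfo n) (hcl R hR n) (by positivity) (by simp [hfo n])]
        rfl
      simp_rw [e1]
      rw [e2]
      exact (hlim.sub tendsto_const_nhds).abs
    have hev := (hlim2.eventually (lt_mem_nhds hn)).exists
    obtain ⟨R', hR'⟩ := hev
    exact ⟨n, max R' R, le_max_right _ _, hR'⟩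
  choose! nf Rf hRf hgt using step
  set Rs : ℕ → ℝ := fun j => Nat.rec (1 : ℝ) (fun _ r => 2 * Rf r) j with hRs
  have hRs0 : Rs 0 = 1 := rfl
  have hRss : ∀ j, Rs (j + 1) = 2 * Rf (Rs j) := fun j => rfl
  have hpos : ∀ j, 0 < Rs j := by
    intro j
    induction j with
    | zero => rw [hRs0]; exact one_pos
    | succ j ih => rw [hRss]; have := hRf _ ih; linarith
  have hle : ∀ j, Rs j ≤ Rs (j + 1) := by
    intro j
    rw [hRss]
    have := hRf _ (hpos j)
    have := hpos j
    linarith
  have hmono : Monotone Rs := monotone_nat_of_le_succ hle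
  -- support property
  have hsupp : ∀ j x, cut o (Rf (Rs j)) x * f (nf (Rs j)) x - cut o (Rs j) x * f (nf (Rs j)) x ≠ 0 →
      Rs j < dist x o ∧ dist x o < Rs (j + 1) := by
    intro j x hne
    have hp := hpos j
    have hp' : 0 < Rf (Rs j) := lt_of_lt_of_le hp (hRf _ hp)
    constructor
    · by_contra hc
      push Not at hc
      apply hne
      rw [cut_eq_one hp hc, cut_eq_one hp' (hc.trans (hRf _ hp)), sub_self]
    · by_contra hc
      push Not at hc
      apply hne
      rw [hRss] at hc
      rw [cut_eq_zero hp' hc, cut_eq_zero hp (le_trans (by linarith [hRf _ hp]) hc), sub_self]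
  have hLip : ∀ j, LipR (6 * q4 C)
      (fun x => cut o (Rf (Rs j)) x * f (nf (Rs j)) x - cut o (Rs j) x * f (nf (Rs j)) x) := by
    intro j
    have hp := hpos j
    have hp' : 0 < Rf (Rs j) := lt_of_lt_of_le hp (hRf _ hp)
    exact ((hcl _ hp' _).sub (hcl _ hp _)).mono (by linarith)
  have hbound : ∀ J : ℕ, (J : ℝ) * ε ^ 4 ≤ A * (12 * q4 C) ^ 4 := by
    intro J
    have hov := overlap_sum (Finset.range J)
      (h := fun j x => cut o (Rf (Rs j)) x * f (nf (Rs j)) x - cut o (Rs j) x * f (nf (Rs j)) x)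
      (K := 6 * q4 C) (by positivity) (fun i _ => hLip i) (R := 1) (by
        intro x
        have : ((Finset.range J).filter (fun j => cut o (Rf (Rs j)) x * f (nf (Rs j)) x -
            cut o (Rs j) x * f (nf (Rs j)) x ≠ 0)).card ≤ 1 := by
          rw [Finset.card_le_one]
          intro a ha b hb
          rw [Finset.mem_filter] at ha hb
          have h1 := hsupp a x ha.2
          have h2 := hsupp b x hb.2
          by_contra hab
          rcases lt_or_gt_of_ne hab with h | h
          · have := hmono (show a + 1 ≤ b from h)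
            linarith [h1.2, h2.1]
          · have := hmono (show b + 1 ≤ a from h)
            linarith [h1.1, h2.2]
        exact_mod_cast this)
    have hp := pairing_bound' H hT hA (Finset.range J)
      (h := fun j x => cut o (Rf (Rs j)) x * f (nf (Rs j)) x - cut o (Rs j) x * f (nf (Rs j)) x)
      (Kf := fun _ => 6 * q4 C) (fun _ _ => by positivity) (fun i _ => hLip i)
      (fun i _ => by simp [hfo]) (K := 12 * q4 C) (by positivity) (by
        intro x y
        refine (hov x y).trans (le_of_eq ?_)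
        ring) (fun j => nf (Rs j))
    refine le_trans ?_ hp
    rw [show (J : ℝ) * ε ^ 4 = ∑ _j ∈ Finset.range J, ε ^ 4 by simp]
    refine Finset.sum_le_sum (fun j _ => ?_)
    have := (hgt _ (hpos j)).le
    calc ε ^ 4 ≤ |ev δ (fun x => cut o (Rf (Rs j)) x * f (nf (Rs j)) x -
          cut o (Rs j) x * f (nf (Rs j)) x) (m (nf (Rs j)))| ^ 4 := pow_le_pow_left₀ hε.le this 4
      _ = _ := by rw [← abs_pow, abs_of_nonneg (by positivity)]
  obtain ⟨J, hJ⟩ := exists_nat_gt (A * (12 * q4 C) ^ 4 / ε ^ 4)
  rw [div_lt_iff₀ (by positivity)] at hJ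
  linarith [hbound J]

end Pool.Agent.Work.MP_ebafbb_an
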